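import Mathlib
import Pool.Agent.Helper95.IT.Stmts

/-!
# Project IT (MP_a499ba_nt), block FE: the quotient `ζ(2s)/ζ(s)` on the line `Re s = c`
-/

set_option autoImplicit false

namespace Pool.Agent.Helper11.IT

open Pool.Agent.Helper95.IT

theorem norm_cos_le_exp (z : ℂ) : ‖Complex.cos z‖ ≤ Real.exp |z.im| := by
  have h1 : Complex.cos z = (Complex.exp (z * Complex.I) + Complex.exp (-z * Complex.I)) / 2 := rfl
  rw [h1, norm_div]
  have h2 : ‖Complex.exp (z * Complex.I)‖ ≤ Real.exp |z.im| := by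
    rw [Complex.norm_exp]
    apply Real.exp_le_exp.2
    simp only [Complex.mul_re, Complex.I_re, Complex.I_im, mul_zero, mul_one, zero_sub]
    exact neg_le_abs _
  have h3 : ‖Complex.exp (-z * Complex.I)‖ ≤ Real.exp |z.im| := by
    rw [Complex.norm_exp]
    apply Real.exp_le_exp.2
    simp only [Complex.mul_re, Complex.neg_re, Complex.neg_im, Complex.I_re, Complex.I_im, mul_zero, mul_one, zero_sub, neg_neg]
    exact le_abs_self _
  have h4 := norm_add_le (Complex.exp (z * Complex.I)) (Complex.exp (-z * Complex.I))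
  have h5 : ‖(2 : ℂ)‖ = 2 := by norm_num
  rw [h5, div_le_iff₀ (by norm_num)]
  linarith

theorem pt_re (c v : ℝ) : (pt c v).re = c := by simp [pt]

theorem pt_im (c v : ℝ) : (pt c v).im = v := by simp [pt]

/-- `‖(2π)^(-w)‖ ≤ 1` for `Re w ≥ 0` -/
theorem norm_two_pi {w : ℂ} (hw : 0 ≤ w.re) : ‖(2 * (Real.pi : ℂ)) ^ (-w)‖ ≤ 1 := by
  have h1 : (2 * (Real.pi : ℂ)) = ((2 * Real.pi : ℝ) : ℂ) := by push_cast; ring
  have hpi := Real.pi_gt_three
  rw [h1, Complex.norm_cpow_eq_rpow_re_of_pos (by linarith)]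
  exact Real.rpow_le_one_of_one_le_of_nonpos (by linarith) (by simpa using hw)

theorem stmtFE (hGA : StmtGA) : StmtFE := by
  obtain ⟨C, hC, hG⟩ := hGA
  intro c hc0 hc1
  refine ⟨16 * C ^ 2 / c, by positivity, fun v hz => ?_⟩
  have hv := abs_nonneg v
  set s := pt c v with hs
  have hsre : s.re = c := pt_re c v
  have hsim : s.im = v := pt_im c v
  -- functional equation at `1 - 2 s`
  have e1 : riemannZeta (2 * s) = 2 * (2 * (Real.pi : ℂ)) ^ (-(1 - 2 * s)) * Complex.Gamma (1 - 2 * s) *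
      Complex.cos (Real.pi * (1 - 2 * s) / 2) * riemannZeta (1 - 2 * s) := by
    have h1 := riemannZeta_one_sub (s := 1 - 2 * s) (fun n h => ?_) (fun h => ?_)
    · rwa [sub_sub_cancel] at h1
    · have h2 := congrArg Complex.re h
      simp [hsre] at h2
      have h3 : (0 : ℝ) ≤ n := Nat.cast_nonneg n
      linarith
    · have h2 := congrArg Complex.re h
      simp [hsre] at h2
      linarith
  -- functional equation at `s`
  have e2 : riemannZeta (1 - s) = 2 * (2 * (Real.pi : ℂ)) ^ (-s) * Complex.Gamma s * Complex.cos (Real.pi * s / 2) * riemannZeta s := by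
    refine riemannZeta_one_sub (fun n h => ?_) (fun h => ?_)
    · have h2 := congrArg Complex.re h
      simp [hsre] at h2
      have h3 : (0 : ℝ) ≤ n := Nat.cast_nonneg n
      linarith
    · have h2 := congrArg Complex.re h
      simp [hsre] at h2
      linarith
  set A : ℂ := 2 * (2 * (Real.pi : ℂ)) ^ (-s) * Complex.Gamma s * Complex.cos (Real.pi * s / 2) with hA
  have hs0 : s ≠ 0 := by
    intro h
    rw [h] at hsre
    simp at hsre
    linarith
  have hA0 : A ≠ 0 := by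
    have h1 : (2 * (Real.pi : ℂ)) ^ (-s) ≠ 0 := by
      rw [Complex.cpow_ne_zero_iff]
      left
      have := Real.pi_ne_zero
      exact mul_ne_zero two_ne_zero (by exact_mod_cast this)
    have h2 : Complex.Gamma s ≠ 0 := Complex.Gamma_ne_zero_of_re_pos (by rw [hsre]; exact hc0)
    have h3 : Complex.cos (Real.pi * s / 2) ≠ 0 := by
      intro h
      rw [Complex.cos_eq_zero_iff] at h
      obtain ⟨k, hk⟩ := h
      have hpi : (Real.pi : ℂ) ≠ 0 := by exact_mod_cast Real.pi_ne_zero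
      have h4 : s = 2 * (k : ℂ) + 1 := by
        have h5 : (Real.pi : ℂ) * s = (Real.pi : ℂ) * (2 * (k : ℂ) + 1) := by linear_combination 2 * hk
        exact mul_left_cancel₀ hpi h5
      have h6 := congrArg Complex.re h4
      rw [hsre] at h6
      simp at h6
      have h7 : (0 : ℝ) < 2 * (k : ℝ) + 1 := by linarith
      have h8 : (2 * (k : ℝ) + 1) < 1 := by linarith
      have h9 : (0 : ℤ) < 2 * k + 1 := by exact_mod_cast h7
      have h10 : (2 * k + 1 : ℤ) < 1 := by exact_mod_cast h8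
      omega
    exact mul_ne_zero (mul_ne_zero (mul_ne_zero two_ne_zero h1) h2) h3
  have e3 : (riemannZeta s)⁻¹ = A * (riemannZeta (1 - s))⁻¹ := by
    rw [e2, mul_inv, ← mul_assoc, mul_inv_cancel₀ hA0, one_mul]
  -- bounds
  have b1 : ‖Complex.Gamma (1 - 2 * s)‖ ≤ C * (1 + 2 * |v|) ^ (1 / 2 - 2 * c) * Real.exp (-(Real.pi * |v|)) := by
    have h1 := hG (1 / 2 - 2 * c) (-(2 * v)) (by linarith) (by linarith)
    have h2 : (1 / 2 : ℂ) + ((1 / 2 - 2 * c : ℝ) : ℂ) + Complex.I * ((-(2 * v) : ℝ) : ℂ) = 1 - 2 * s := by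
      rw [hs, pt]
      push_cast
      ring
    rw [h2, abs_neg, abs_mul, abs_of_pos (by norm_num : (0 : ℝ) < 2)] at h1
    rwa [show Real.pi * (2 * |v|) / 2 = Real.pi * |v| by ring] at h1
  have b2 : ‖Complex.Gamma s‖ * ‖s‖ ≤ C * (1 + |v|) ^ (1 / 2 + c) * Real.exp (-(Real.pi * |v| / 2)) := by
    have h1 := hG (1 / 2 + c) v (by linarith) (by linarith)
    have h2 : (1 / 2 : ℂ) + ((1 / 2 + c : ℝ) : ℂ) + Complex.I * (v : ℂ) = s + 1 := by
      rw [hs, pt]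
      push_cast
      ring
    rw [h2, Complex.Gamma_add_one s hs0, norm_mul] at h1
    linarith
  have b3 : ‖Complex.cos (Real.pi * (1 - 2 * s) / 2)‖ ≤ Real.exp (Real.pi * |v|) := by
    refine (norm_cos_le_exp _).trans (le_of_eq ?_)
    congr 1
    have h1 : ((Real.pi : ℂ) * (1 - 2 * s) / 2) = ((Real.pi / 2 - Real.pi * c : ℝ) : ℂ) + ((-(Real.pi * v) : ℝ) : ℂ) * Complex.I := by
      rw [hs, pt]
      push_cast
      ring
    have h2 : ((Real.pi : ℂ) * (1 - 2 * s) / 2).im = -(Real.pi * v) := by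
      rw [h1]
      simp only [Complex.add_im, Complex.ofReal_im, Complex.mul_im, Complex.ofReal_re, Complex.I_im, Complex.I_re, mul_one,
        mul_zero, add_zero, zero_add]
    rw [h2, abs_neg, abs_mul, abs_of_pos Real.pi_pos]
  have b4 : ‖Complex.cos (Real.pi * s / 2)‖ ≤ Real.exp (Real.pi * |v| / 2) := by
    refine (norm_cos_le_exp _).trans (le_of_eq ?_)
    congr 1
    have h1 : ((Real.pi : ℂ) * s / 2) = ((Real.pi * c / 2 : ℝ) : ℂ) + ((Real.pi * v / 2 : ℝ) : ℂ) * Complex.I := by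
      rw [hs, pt]
      push_cast
      ring
    have h2 : ((Real.pi : ℂ) * s / 2).im = Real.pi * v / 2 := by
      rw [h1]
      simp only [Complex.add_im, Complex.ofReal_im, Complex.mul_im, Complex.ofReal_re, Complex.I_im, Complex.I_re, mul_one,
        mul_zero, add_zero, zero_add]
    rw [h2, abs_div, abs_mul, abs_of_pos Real.pi_pos, abs_of_pos (by norm_num : (0 : ℝ) < 2)]
  have b5 : ‖(2 * (Real.pi : ℂ)) ^ (-(1 - 2 * s))‖ ≤ 1 := norm_two_pi (by simp [hsre]; linarith)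
  have b6 : ‖(2 * (Real.pi : ℂ)) ^ (-s)‖ ≤ 1 := norm_two_pi (by rw [hsre]; exact hc0.le)
  have b7 : c * (1 + |v|) ≤ 2 * ‖s‖ := by
    have h1 : |s.re| ≤ ‖s‖ := Complex.abs_re_le_norm s
    have h2 : |s.im| ≤ ‖s‖ := Complex.abs_im_le_norm s
    rw [hsre, abs_of_pos hc0] at h1
    rw [hsim] at h2
    nlinarith
  have b8 : (1 + 2 * |v|) ^ (1 / 2 - 2 * c) ≤ 2 * (1 + |v|) ^ (1 / 2 - 2 * c) := by
    calc (1 + 2 * |v|) ^ (1 / 2 - 2 * c) ≤ (2 * (1 + |v|)) ^ (1 / 2 - 2 * c) :=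
          Real.rpow_le_rpow (by positivity) (by linarith) (by linarith)
      _ = (2 : ℝ) ^ (1 / 2 - 2 * c) * (1 + |v|) ^ (1 / 2 - 2 * c) := Real.mul_rpow (by norm_num) (by positivity)
      _ ≤ 2 * (1 + |v|) ^ (1 / 2 - 2 * c) := by
          refine mul_le_mul_of_nonneg_right ?_ (by positivity)
          calc (2 : ℝ) ^ (1 / 2 - 2 * c) ≤ (2 : ℝ) ^ (1 : ℝ) := Real.rpow_le_rpow_of_exponent_le (by norm_num) (by linarith)
            _ = 2 := Real.rpow_one _
  -- the two factors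
  set X : ℂ := 2 * (2 * (Real.pi : ℂ)) ^ (-(1 - 2 * s)) * Complex.Gamma (1 - 2 * s) * Complex.cos (Real.pi * (1 - 2 * s) / 2) with hX
  have c1 : ‖X‖ ≤ 4 * C * (1 + |v|) ^ (1 / 2 - 2 * c) := by
    rw [hX, norm_mul, norm_mul, norm_mul]
    have h2 : ‖(2 : ℂ)‖ = 2 := by norm_num
    rw [h2]
    have h3 : Real.exp (-(Real.pi * |v|)) * Real.exp (Real.pi * |v|) = 1 := by rw [← Real.exp_add, neg_add_cancel, Real.exp_zero]
    calc 2 * ‖(2 * (Real.pi : ℂ)) ^ (-(1 - 2 * s))‖ * ‖Complex.Gamma (1 - 2 * s)‖ * ‖Complex.cos (Real.pi * (1 - 2 * s) / 2)‖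
        ≤ 2 * 1 * (C * (1 + 2 * |v|) ^ (1 / 2 - 2 * c) * Real.exp (-(Real.pi * |v|))) * Real.exp (Real.pi * |v|) := by
          gcongr
      _ = 2 * C * (1 + 2 * |v|) ^ (1 / 2 - 2 * c) * (Real.exp (-(Real.pi * |v|)) * Real.exp (Real.pi * |v|)) := by ring
      _ = 2 * C * (1 + 2 * |v|) ^ (1 / 2 - 2 * c) := by rw [h3, mul_one]
      _ ≤ 2 * C * (2 * (1 + |v|) ^ (1 / 2 - 2 * c)) := mul_le_mul_of_nonneg_left b8 (by positivity)
      _ = _ := by ring
  have c2 : ‖A‖ * ‖s‖ ≤ 2 * C * (1 + |v|) ^ (1 / 2 + c) := by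
    rw [hA, norm_mul, norm_mul, norm_mul]
    have h2 : ‖(2 : ℂ)‖ = 2 := by norm_num
    rw [h2]
    have h3 : Real.exp (-(Real.pi * |v| / 2)) * Real.exp (Real.pi * |v| / 2) = 1 := by
      rw [← Real.exp_add, neg_add_cancel, Real.exp_zero]
    calc 2 * ‖(2 * (Real.pi : ℂ)) ^ (-s)‖ * ‖Complex.Gamma s‖ * ‖Complex.cos (Real.pi * s / 2)‖ * ‖s‖
        = 2 * ‖(2 * (Real.pi : ℂ)) ^ (-s)‖ * (‖Complex.Gamma s‖ * ‖s‖) * ‖Complex.cos (Real.pi * s / 2)‖ := by ring
      _ ≤ 2 * 1 * (C * (1 + |v|) ^ (1 / 2 + c) * Real.exp (-(Real.pi * |v| / 2))) * Real.exp (Real.pi * |v| / 2) := by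
          gcongr
      _ = 2 * C * (1 + |v|) ^ (1 / 2 + c) * (Real.exp (-(Real.pi * |v| / 2)) * Real.exp (Real.pi * |v| / 2)) := by ring
      _ = _ := by rw [h3, mul_one]
  have hs1 : 0 < ‖s‖ := norm_pos_iff.2 hs0
  have hv1 : 0 < 1 + |v| := by positivity
  have c3 : ‖A‖ ≤ 4 * C / c * (1 + |v|) ^ (c - 1 / 2) := by
    have h1 : ‖A‖ * (c * (1 + |v|)) ≤ 4 * C * (1 + |v|) ^ (1 / 2 + c) := by
      have h3 := mul_le_mul_of_nonneg_left b7 (norm_nonneg A)
      linarith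
    have h2 : (1 + |v|) ^ (1 / 2 + c) = (1 + |v|) ^ (c - 1 / 2) * (1 + |v|) := by
      have h5 := Real.rpow_add hv1 (c - 1 / 2) 1
      rw [Real.rpow_one] at h5
      rw [← h5]
      congr 1
      ring
    rw [h2] at h1
    have h3 : ‖A‖ * c * (1 + |v|) ≤ 4 * C * (1 + |v|) ^ (c - 1 / 2) * (1 + |v|) := by linarith
    have h4 := le_of_mul_le_mul_right h3 hv1
    rw [div_mul_eq_mul_div, le_div_iff₀ hc0]
    exact h4
  have c4 : ‖X‖ * ‖A‖ ≤ 16 * C ^ 2 / c * (1 + |v|) ^ (-c) := by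
    calc ‖X‖ * ‖A‖ ≤ (4 * C * (1 + |v|) ^ (1 / 2 - 2 * c)) * (4 * C / c * (1 + |v|) ^ (c - 1 / 2)) :=
          mul_le_mul c1 c3 (norm_nonneg _) (by positivity)
      _ = 16 * C ^ 2 / c * ((1 + |v|) ^ (1 / 2 - 2 * c) * (1 + |v|) ^ (c - 1 / 2)) := by ring
      _ = _ := by
          rw [← Real.rpow_add hv1]
          congr 2
          ring
  have e1' : riemannZeta (2 * s) = X * riemannZeta (1 - 2 * s) := e1
  have e4 : ‖riemannZeta (2 * s) / riemannZeta s‖ = ‖X‖ * ‖riemannZeta (1 - 2 * s)‖ * (‖A‖ * ‖(riemannZeta (1 - s))⁻¹‖) := by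
    rw [div_eq_mul_inv, e3, e1', norm_mul, norm_mul X, norm_mul A]
  rw [e4]
  calc ‖X‖ * ‖riemannZeta (1 - 2 * s)‖ * (‖A‖ * ‖(riemannZeta (1 - s))⁻¹‖)
      = (‖X‖ * ‖A‖) * (‖riemannZeta (1 - 2 * s)‖ * ‖(riemannZeta (1 - s))⁻¹‖) := by ring
    _ ≤ (16 * C ^ 2 / c * (1 + |v|) ^ (-c)) * (‖riemannZeta (1 - 2 * s)‖ * ‖(riemannZeta (1 - s))⁻¹‖) :=
        mul_le_mul_of_nonneg_right c4 (by positivity)
    _ = _ := by ring

end Pool.Agent.Helper11.IT
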