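import Pool.Agent.Helper11.IT.LoM

/-!
# Project IT (MP_a499ba_nt): the mass of the Dirichlet polynomial of the completely multiplicative model
-/

set_option autoImplicit false

namespace Pool.Agent.Helper11.IT

open Finset MeasureTheory Pool.Agent.Helper5.RM Pool.Agent.Helper96.AF Pool.Agent.Helper66.LW Pool.Agent.IT

theorem rpow_eq_exp {p : ℕ} (hp : 0 < p) (σ : ℝ) : (p : ℝ) ^ (-(1 + 2 * σ)) = 1 / p * Real.exp (-(2 * σ * Real.log p)) := by
  have hp0 : (0 : ℝ) < p := by exact_mod_cast hp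
  rw [neg_add, Real.rpow_add hp0, Real.rpow_neg_one, Real.rpow_def_of_pos hp0 (-(2 * σ)), one_div (p : ℝ)]
  congr 2
  ring

theorem sdiff_succ {s L : ℕ} (h : s ≤ L) : PP (Y (L + 1)) \ PP (Y s) = (PP (Y L) \ PP (Y s)) ∪ BL L := by
  ext p
  unfold BL
  simp only [Finset.mem_sdiff, Finset.mem_union]
  have h1 : p ∈ PP (Y s) → p ∈ PP (Y L) := fun hp => PP_Y_mono h hp
  have h2 : p ∈ PP (Y L) → p ∈ PP (Y (L + 1)) := fun hp => PP_Y_mono (Nat.le_succ L) hp
  tauto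

theorem disj_succ (s L : ℕ) : Disjoint (PP (Y L) \ PP (Y s)) (BL L) := by
  rw [Finset.disjoint_left]
  intro p hp hp'
  unfold BL at hp'
  exact (Finset.mem_sdiff.1 hp').2 (Finset.mem_sdiff.1 hp).1

/-- the sum of `cos / p^(1 + 2 σ)` is bounded under `PhOK` -/
theorem ph_sum : ∃ C : ℝ, 0 ≤ C ∧ ∀ (s0 r : ℕ) (th : ℕ → ℝ), s0 ≤ r → PhOK s0 r th → ∀ σ : ℝ, 0 ≤ σ → ∀ t ∈ Set.Icc (0 : ℝ) 1,
    |∑ p ∈ PP (Y r), (p : ℝ) ^ (-(1 + 2 * σ)) * Real.cos (2 * (t * Real.log p - th p))| ≤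
      C + ∑ p ∈ PP (Y s0), (1 : ℝ) / p := by
  obtain ⟨C, hC, hblock⟩ := block_sum
  refine ⟨C + 2, by linarith, fun s0 r th hsr hP σ hσ t ht => ?_⟩
  set a : ℕ → ℝ := fun p => Real.cos (2 * (t * Real.log p - th p)) / p with ha
  set g : ℕ → ℝ := fun p => Real.exp (-(2 * σ * Real.log p)) with hg
  set w : ℕ → ℝ := fun l => Real.exp (-(2 * σ * Vr l)) with hw
  set S : ℕ → ℝ := fun L => ∑ p ∈ PP (Y L) \ PP (Y s0), a p with hS
  have hwpos : ∀ l, 0 < w l := fun l => Real.exp_pos _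
  have hwmono : ∀ l, w (l + 1) ≤ w l := by
    intro l
    rw [hw]
    simp only
    rw [← two_Vr]
    apply Real.exp_le_exp.2
    have h1 : 0 ≤ σ * Vr l := mul_nonneg hσ (Vr_pos l).le
    linarith
  have hw1 : ∀ l, w l ≤ 1 := by
    intro l
    rw [hw]
    simp only
    rw [Real.exp_le_one_iff]
    have h1 : 0 ≤ σ * Vr l := mul_nonneg hσ (Vr_pos l).le
    linarith
  have hS1 : ∀ L, s0 ≤ L → L ≤ r → |S L| ≤ 1 := fun L h1 h2 => hP s0 L le_rfl h1 h2 t ht
  have hap : ∀ p, |a p| ≤ 1 / p := by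
    intro p
    rw [ha]
    simp only
    rw [abs_div, Nat.abs_cast]
    exact div_le_div_of_nonneg_right (Real.abs_cos_le_one _) (Nat.cast_nonneg p)
  have hterm : ∀ p ∈ PP (Y r), (p : ℝ) ^ (-(1 + 2 * σ)) * Real.cos (2 * (t * Real.log p - th p)) = a p * g p := by
    intro p hp
    rw [rpow_eq_exp (mem_PP.1 hp).1.pos, ha, hg]
    simp only
    ring
  have key : ∀ L, s0 ≤ L → L ≤ r → |∑ p ∈ PP (Y L) \ PP (Y s0), a p * g p - w L * S L| ≤ (C + 1) * (w s0 - w L) := by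
    intro L hL
    induction L, hL using Nat.le_induction with
    | base =>
      intro _
      rw [hS]
      simp
    | succ L hL ih =>
      intro hLr
      have h1 := ih (by omega)
      have h2 : ∑ p ∈ PP (Y (L + 1)) \ PP (Y s0), a p * g p = ∑ p ∈ PP (Y L) \ PP (Y s0), a p * g p + ∑ p ∈ BL L, a p * g p := by
        rw [sdiff_succ hL, Finset.sum_union (disj_succ s0 L)]
      have h3 : S (L + 1) = S L + ∑ p ∈ BL L, a p := by
        rw [hS]
        simp only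
        rw [sdiff_succ hL, Finset.sum_union (disj_succ s0 L)]
      have h4 : ∑ p ∈ PP (Y (L + 1)) \ PP (Y s0), a p * g p - w (L + 1) * S (L + 1) =
          (∑ p ∈ PP (Y L) \ PP (Y s0), a p * g p - w L * S L) + ∑ p ∈ BL L, a p * (g p - w (L + 1)) + (w L - w (L + 1)) * S L := by
        rw [h2, h3]
        simp only [mul_sub, Finset.sum_sub_distrib, ← Finset.sum_mul]
        ring
      have h5 : |∑ p ∈ BL L, a p * (g p - w (L + 1))| ≤ C * (w L - w (L + 1)) := by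
        calc |∑ p ∈ BL L, a p * (g p - w (L + 1))| ≤ ∑ p ∈ BL L, |a p * (g p - w (L + 1))| := Finset.abs_sum_le_sum_abs _ _
          _ ≤ ∑ p ∈ BL L, 1 / (p : ℝ) * (w L - w (L + 1)) := by
              refine Finset.sum_le_sum fun p hp => ?_
              obtain ⟨h6, h7⟩ := log_mem_BL hp
              rw [two_Vr] at h7
              have h8 : w (L + 1) ≤ g p := by
                apply Real.exp_le_exp.2
                have := mul_le_mul_of_nonneg_left h7 hσ
                linarith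
              have h9 : g p ≤ w L := by
                apply Real.exp_le_exp.2
                have := mul_le_mul_of_nonneg_left h6.le hσ
                linarith
              rw [abs_mul, abs_of_nonneg (sub_nonneg.2 h8)]
              exact mul_le_mul (hap p) (by linarith) (sub_nonneg.2 h8) (by positivity)
          _ = (∑ p ∈ BL L, 1 / (p : ℝ)) * (w L - w (L + 1)) := by rw [Finset.sum_mul]
          _ ≤ _ := mul_le_mul_of_nonneg_right (hblock L) (sub_nonneg.2 (hwmono L))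
      have h6 : |(w L - w (L + 1)) * S L| ≤ w L - w (L + 1) := by
        rw [abs_mul, abs_of_nonneg (sub_nonneg.2 (hwmono L))]
        exact mul_le_of_le_one_right (sub_nonneg.2 (hwmono L)) (hS1 L hL (by omega))
      rw [h4]
      refine (abs_add_three _ _ _).trans ?_
      linarith
  have h1 := key r hsr le_rfl
  have h2 : ∑ p ∈ PP (Y r), (p : ℝ) ^ (-(1 + 2 * σ)) * Real.cos (2 * (t * Real.log p - th p)) =
      ∑ p ∈ PP (Y r) \ PP (Y s0), a p * g p + ∑ p ∈ PP (Y s0), a p * g p := by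
    rw [Finset.sum_sdiff (PP_Y_mono hsr)]
    exact Finset.sum_congr rfl hterm
  have h3 : |∑ p ∈ PP (Y s0), a p * g p| ≤ ∑ p ∈ PP (Y s0), (1 : ℝ) / p := by
    refine (Finset.abs_sum_le_sum_abs _ _).trans (Finset.sum_le_sum fun p hp => ?_)
    rw [abs_mul, abs_of_pos (Real.exp_pos _)]
    have h4 : g p ≤ 1 := by
      rw [hg]
      simp only
      rw [Real.exp_le_one_iff]
      have h5 : 0 ≤ Real.log p := Real.log_nonneg (by exact_mod_cast (mem_PP.1 hp).1.one_lt.le)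
      have : 0 ≤ 2 * σ * Real.log p := by positivity
      linarith
    calc |a p| * g p ≤ 1 / p * 1 := mul_le_mul (hap p) h4 (Real.exp_pos _).le (by positivity)
      _ = _ := mul_one _
  have h4 : |w r * S r| ≤ 1 := by
    rw [abs_mul, abs_of_pos (hwpos r)]
    exact mul_le_one₀ (hw1 r) (abs_nonneg _) (hS1 r hsr le_rfl)
  have h5 : (C + 1) * (w s0 - w r) ≤ C + 1 := by
    have := hw1 s0
    have := (hwpos r).le
    nlinarith
  rw [h2]
  have h6 : ∑ p ∈ PP (Y r) \ PP (Y s0), a p * g p + ∑ p ∈ PP (Y s0), a p * g p =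
      (∑ p ∈ PP (Y r) \ PP (Y s0), a p * g p - w r * S r) + w r * S r + ∑ p ∈ PP (Y s0), a p * g p := by ring
  rw [h6]
  refine (abs_add_three _ _ _).trans ?_
  linarith

/-- one factor of the quotient -/
theorem fac_le {p : ℕ} (hp : 0 < p) {σ : ℝ} (hσ : 0 ≤ σ) (th : ℕ → ℝ) (T : Finset ℕ) (t : ℝ) :
    ‖1 - zt σ th T t p ^ 2‖ ^ 2 ≤
      Real.exp (-(2 * ((p : ℝ) ^ (-(1 + 2 * σ)) * Real.cos (2 * (t * Real.log p - th p)))) + 1 / (p : ℝ) ^ 2) := by
  have hp0 : (0 : ℝ) < p := by exact_mod_cast hp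
  have hp1 : (1 : ℝ) ≤ p := by exact_mod_cast hp
  have h1 : zt σ th T t p ^ 2 = (((p : ℝ) ^ (-(1 + 2 * σ)) : ℝ) : ℂ) * Complex.exp (Complex.I * ((2 * (th p - t * Real.log p) : ℝ) : ℂ)) := by
    rw [zt_eq hp, mul_pow, ← Complex.exp_nat_mul, ← Complex.ofReal_pow, mul_pow, sg_sq, one_mul, rpow_sq hp]
    congr 2
    push_cast
    ring
  have h2 : 1 - zt σ th T t p ^ 2 = 1 + ((-((p : ℝ) ^ (-(1 + 2 * σ))) : ℝ) : ℂ) *
      Complex.exp (Complex.I * ((2 * (th p - t * Real.log p) : ℝ) : ℂ)) := by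
    rw [h1]
    push_cast
    ring
  have h3 : ((p : ℝ) ^ (-(1 + 2 * σ))) ^ 2 ≤ 1 / (p : ℝ) ^ 2 := by
    rw [← Real.rpow_natCast, ← Real.rpow_mul hp0.le, one_div, ← Real.rpow_natCast, ← Real.rpow_neg hp0.le]
    exact Real.rpow_le_rpow_of_exponent_le hp1 (by push_cast; linarith)
  rw [h2, normsq_one_add, show 2 * (th p - t * Real.log p) = -(2 * (t * Real.log p - th p)) by ring, Real.cos_neg, neg_sq]
  have h4 := Real.add_one_le_exp (-(2 * ((p : ℝ) ^ (-(1 + 2 * σ)) * Real.cos (2 * (t * Real.log p - th p)))) + 1 / (p : ℝ) ^ 2)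
  linarith

theorem DM_le_DL (s0 : ℕ) : ∃ K : ℝ, ∀ (r : ℕ) (th : ℕ → ℝ) (T : Finset ℕ), s0 ≤ r → 0 ≤ sr r → PhOK s0 r th →
    ∀ t ∈ Set.Icc (0 : ℝ) 1, ‖DM r th T t‖ ^ 2 ≤ Real.exp K * ‖DL r th T t‖ ^ 2 := by
  obtain ⟨C, hC, hph⟩ := ph_sum
  refine ⟨2 * (C + ∑ p ∈ PP (Y s0), (1 : ℝ) / p) + Helper66.AF.C2, fun r th T hsr hs hP t ht => ?_⟩
  have h1 : ‖DM r th T t‖ ^ 2 = (∏ p ∈ PP (Y r), ‖1 - zt (sr r) th T t p ^ 2‖ ^ 2) * ‖DL r th T t‖ ^ 2 := by
    rw [DM_eq, DL_eq, norm_prod, norm_prod, ← Finset.prod_pow, ← Finset.prod_pow, ← Finset.prod_mul_distrib]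
    refine Finset.prod_congr rfl fun p hp => ?_
    have h2 := one_sub_zt_ne (mem_PP.1 hp).1.two_le hs th T t
    have h3 : 1 - zt (sr r) th T t p ^ 2 = (1 - zt (sr r) th T t p) * (1 + zt (sr r) th T t p) := by ring
    rw [← mul_pow, ← norm_mul, h3]
    congr 2
    field_simp
  rw [h1]
  refine mul_le_mul_of_nonneg_right ?_ (sq_nonneg _)
  calc ∏ p ∈ PP (Y r), ‖1 - zt (sr r) th T t p ^ 2‖ ^ 2
      ≤ ∏ p ∈ PP (Y r), Real.exp (-(2 * ((p : ℝ) ^ (-(1 + 2 * sr r)) * Real.cos (2 * (t * Real.log p - th p)))) + 1 / (p : ℝ) ^ 2) :=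
        Finset.prod_le_prod (fun p _ => sq_nonneg _) fun p hp => fac_le (mem_PP.1 hp).1.pos hs th T t
    _ = Real.exp (-(2 * ∑ p ∈ PP (Y r), (p : ℝ) ^ (-(1 + 2 * sr r)) * Real.cos (2 * (t * Real.log p - th p))) +
          ∑ p ∈ PP (Y r), 1 / (p : ℝ) ^ 2) := by
        rw [← Real.exp_sum, Finset.sum_add_distrib, Finset.sum_neg_distrib, ← Finset.mul_sum]
    _ ≤ _ := by
        apply Real.exp_le_exp.2
        have h4 := hph s0 r th hsr hP (sr r) hs t ht
        have h5 := (abs_le.1 h4).1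
        have h6 := Helper66.AF.sum_sq_le (PP (Y r))
        linarith

theorem stmtLo_L (hA : StmtA) (hB : StmtB) : StmtLo DL := by
  refine frame hA hB DL fun s0 δ hδ => ?_
  obtain ⟨K, hK⟩ := DM_le_DL s0
  obtain ⟨r0, h⟩ := lower_DM (δ / 2) (by positivity)
  have htend : Filter.Tendsto (fun r : ℕ => (r : ℝ) ^ (δ / 2)) Filter.atTop Filter.atTop :=
    (tendsto_rpow_atTop (by positivity)).comp tendsto_natCast_atTop_atTop
  obtain ⟨r1, hr1⟩ := Filter.eventually_atTop.1 (htend.eventually_ge_atTop (Real.exp K))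
  refine ⟨max (max r0 r1) (max s0 2), fun r hr th T hP hG k hk1 hk2 => ?_⟩
  have g0 : r0 ≤ r := ((le_max_left _ _).trans (le_max_left _ _)).trans hr
  have g1 : r1 ≤ r := ((le_max_right _ _).trans (le_max_left _ _)).trans hr
  have g2 : s0 ≤ r := ((le_max_left _ _).trans (le_max_right _ _)).trans hr
  have g3 : 2 ≤ r := ((le_max_right _ _).trans (le_max_right _ _)).trans hr
  have hrp : (0 : ℝ) < r := by exact_mod_cast (show 0 < r by omega)
  have hs := (sr_pos g3).le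
  have h1 := h r g0 th T (by
    rw [show δ / 2 / 2 = δ / 4 by ring]
    exact hG) k hk1 hk2
  have h2 := hr1 r g1
  have h3 : ∫ t in (1 / 16 : ℝ)..(1 / 8), (1 - Real.cos (k * t)) * ‖DM r th T t‖ ^ 2 ≤
      Real.exp K * ∫ t in (1 / 16 : ℝ)..(1 / 8), (1 - Real.cos (k * t)) * ‖DL r th T t‖ ^ 2 := by
    rw [← intervalIntegral.integral_const_mul]
    refine intervalIntegral.integral_mono_on (by norm_num) ?_ ?_ fun t ht => ?_
    · apply Continuous.intervalIntegrable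
      have := continuous_DM r th T
      fun_prop
    · apply Continuous.intervalIntegrable
      have := continuous_DL hs th T
      fun_prop
    · have h4 := hK r th T g2 hs hP t ⟨by linarith [ht.1], by linarith [ht.2]⟩
      have h5 : 0 ≤ 1 - Real.cos (k * t) := by linarith [Real.cos_le_one (k * t)]
      calc (1 - Real.cos (k * t)) * ‖DM r th T t‖ ^ 2 ≤ (1 - Real.cos (k * t)) * (Real.exp K * ‖DL r th T t‖ ^ 2) :=
            mul_le_mul_of_nonneg_left h4 h5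
        _ = _ := by ring
  have h4 : (r : ℝ) ^ (-(1 / 2) - δ / 2) = (r : ℝ) ^ (δ / 2) * (r : ℝ) ^ (-(1 / 2) - δ) := by
    rw [← Real.rpow_add hrp]
    congr 1
    ring
  have h5 : Real.exp K * (2 ^ r * (r : ℝ) ^ (-(1 / 2) - δ)) ≤
      Real.exp K * ∫ t in (1 / 16 : ℝ)..(1 / 8), (1 - Real.cos (k * t)) * ‖DL r th T t‖ ^ 2 := by
    refine le_trans ?_ (h1.trans h3)
    rw [h4]
    calc Real.exp K * (2 ^ r * (r : ℝ) ^ (-(1 / 2) - δ)) ≤ (r : ℝ) ^ (δ / 2) * (2 ^ r * (r : ℝ) ^ (-(1 / 2) - δ)) :=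
          mul_le_mul_of_nonneg_right h2 (by positivity)
      _ = _ := by ring
  exact le_of_mul_le_mul_left h5 (Real.exp_pos K)

end Pool.Agent.Helper11.IT
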