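import Pool.Agent.Helper11.IT.Nrm

/-!
# Project IT (MP_a499ba_nt): the mass of the Dirichlet polynomial of the squarefree model
-/

set_option autoImplicit false

namespace Pool.Agent.Helper11.IT

open Finset MeasureTheory Pool.Agent.Helper5.RM Pool.Agent.Helper96.AF Pool.Agent.Helper66.LW Pool.Agent.IT

theorem lower_DM (δ : ℝ) (hδ : 0 < δ) : ∃ r0 : ℕ, ∀ r : ℕ, r0 ≤ r → ∀ (th : ℕ → ℝ) (T : Finset ℕ),
    (¬ ∃ k : ℕ, 2 ^ (r / 4) ≤ k ∧ k ≤ 2 ^ r ∧
      ∫ t in (1 / 16 : ℝ)..(1 / 8), ddp (sr r) th (PP (Y r)) T t * (1 - Real.cos (k * t)) < (r : ℝ) ^ (-(1 / 2) - δ / 2)) →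
    Low δ r (DM r th T) := by
  obtain ⟨r1, h1⟩ := prod_low (δ / 2) (by positivity)
  refine ⟨max r1 1, fun r hr th T hG k hk1 hk2 => ?_⟩
  have hr0 : (0 : ℝ) < r := by exact_mod_cast (show 0 < r from lt_of_lt_of_le one_pos ((le_max_right _ _).trans hr))
  have h2 := h1 r ((le_max_left _ _).trans hr)
  have h3 : (r : ℝ) ^ (-(1 / 2) - δ / 2) ≤ ∫ t in (1 / 16 : ℝ)..(1 / 8), ddp (sr r) th (PP (Y r)) T t * (1 - Real.cos (k * t)) := by
    by_contra hcon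
    push Not at hcon
    exact hG ⟨k, hk1, hk2, hcon⟩
  have h4 : ∫ t in (1 / 16 : ℝ)..(1 / 8), (1 - Real.cos (k * t)) * ‖DM r th T t‖ ^ 2 =
      (∏ p ∈ PP (Y r), (1 + (p : ℝ) ^ (-(1 + 2 * sr r)))) *
        ∫ t in (1 / 16 : ℝ)..(1 / 8), ddp (sr r) th (PP (Y r)) T t * (1 - Real.cos (k * t)) := by
    rw [← intervalIntegral.integral_const_mul]
    apply intervalIntegral.integral_congr
    intro t _
    simp only
    rw [normsq_DM]
    ring
  rw [h4]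
  have h5 : (r : ℝ) ^ (-(1 / 2) - δ) = (r : ℝ) ^ (-(δ / 2)) * (r : ℝ) ^ (-(1 / 2) - δ / 2) := by
    rw [← Real.rpow_add hr0]
    congr 1
    ring
  rw [h5, ← mul_assoc]
  refine mul_le_mul h2 h3 (by positivity) ?_
  exact le_trans (by positivity) h2

/-- the frame of both mass statements -/
theorem frame (hA : StmtA) (hB : StmtB) (D : ℕ → (ℕ → ℝ) → Finset ℕ → ℝ → ℂ)
    (hD : ∀ (s0 : ℕ) (δ : ℝ), 0 < δ → ∃ r0 : ℕ, ∀ r : ℕ, r0 ≤ r → ∀ (th : ℕ → ℝ) (T : Finset ℕ), PhOK s0 r th →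
      (¬ ∃ k : ℕ, 2 ^ (r / 4) ≤ k ∧ k ≤ 2 ^ r ∧
        ∫ t in (1 / 16 : ℝ)..(1 / 8), ddp (sr r) th (PP (Y r)) T t * (1 - Real.cos (k * t)) < (r : ℝ) ^ (-(1 / 2) - δ / 4)) →
      Low δ r (D r th T)) : StmtLo D := by
  classical
  intro δ η hδ hη
  obtain ⟨s0, h1⟩ := hB (η / 2) (by positivity)
  obtain ⟨r1, h2⟩ := hA s0 (δ / 4) (by positivity)
  obtain ⟨r2, h3⟩ := hD s0 δ hδ
  obtain ⟨r3, h4⟩ := exists_nat_ge (2 / η)
  refine ⟨max (max r1 r2) (max r3 1), fun r hr ph => ?_⟩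
  have hr1 : r1 ≤ r := ((le_max_left _ _).trans (le_max_left _ _)).trans hr
  have hr2 : r2 ≤ r := ((le_max_right _ _).trans (le_max_left _ _)).trans hr
  have hr3 : r3 ≤ r := ((le_max_left _ _).trans (le_max_right _ _)).trans hr
  have hr4 : 1 ≤ r := ((le_max_right _ _).trans (le_max_right _ _)).trans hr
  have hr0 : (1 : ℝ) ≤ r := by exact_mod_cast hr4
  have h5 : 1 / (r : ℝ) ^ 2 ≤ η / 2 := by
    have h6 : 2 / η ≤ r := h4.trans (by exact_mod_cast hr3)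
    rw [div_le_iff₀ hη] at h6
    rw [div_le_iff₀ (by positivity)]
    nlinarith [mul_nonneg hη.le (sub_nonneg.2 hr0)]
  have h6 : ∀ T2 : Finset ℕ, pr (PP (Y r)) (fun T1 => ¬ Low δ r (D r (tt ph T2) T1)) ≤
      (if ¬ PhOK s0 r (tt ph T2) then (1 : ℝ) else 0) + η / 2 := by
    intro T2
    by_cases hP : PhOK s0 r (tt ph T2)
    · rw [if_neg (not_not.2 hP), zero_add]
      refine le_trans ?_ ((h2 r hr1 (tt ph T2) hP).trans h5)
      refine pr_mono fun T1 _ hn => ?_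
      by_contra hcon
      exact hn (h3 r hr2 (tt ph T2) T1 hP hcon)
    · rw [if_pos hP]
      have h7 := pr_le_one (PP (Y r)) (fun T1 => ¬ Low δ r (D r (tt ph T2) T1))
      linarith
  calc av (PP (Y r)) (fun T2 => pr (PP (Y r)) (fun T1 => ¬ Low δ r (D r (tt ph T2) T1)))
      ≤ av (PP (Y r)) (fun T2 => (if ¬ PhOK s0 r (tt ph T2) then (1 : ℝ) else 0) + η / 2) := av_mono fun T2 _ => h6 T2
    _ = pr (PP (Y r)) (fun T2 => ¬ PhOK s0 r (tt ph T2)) + η / 2 := by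
        rw [av_add, av_const]
        congr 1
        unfold pr
        exact av_congr fun T _ => by by_cases hP : PhOK s0 r (tt ph T) <;> simp [hP]
    _ ≤ η := by
        have := h1 r ph
        linarith

theorem stmtLo_M (hA : StmtA) (hB : StmtB) : StmtLo DM := by
  refine frame hA hB DM fun s0 δ hδ => ?_
  obtain ⟨r0, h⟩ := lower_DM (δ / 2) (by positivity)
  refine ⟨max r0 1, fun r hr th T _ hG k hk1 hk2 => ?_⟩
  have h1 := h r ((le_max_left _ _).trans hr) th T (by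
    rw [show δ / 2 / 2 = δ / 4 by ring]
    exact hG) k hk1 hk2
  refine le_trans ?_ h1
  have hr1 : (1 : ℝ) ≤ r := by exact_mod_cast (le_max_right _ _).trans hr
  refine mul_le_mul_of_nonneg_left ?_ (by positivity)
  exact Real.rpow_le_rpow_of_exponent_le hr1 (by linarith)

end Pool.Agent.Helper11.IT
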