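import Pool.Agent.Helper57.LH.Planch
import Pool.Agent.Helper95.IT.Stmts

/-!
# Project IT (MP_a499ba_nt), block MV: mean values by Plancherel

`k_h(u) = (f(u+h) - f(u)) e^{-σu}` has the transform `(e^{(σ+iv)h} - 1) F(v)`; with `h = 1/V` and `V ≤ v ≤ 2V` the factor
is at least `1/2`, so `∫_V^{2V} |F|^2 = O(1/V)`.
-/

set_option autoImplicit false

namespace Pool.Agent.Helper11.IT

open MeasureTheory Set Filter Pool.Agent.Helper57.LH Pool.Agent.Helper95.IT

/-- a decaying exponential on the half line -/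
theorem int_ind {b : ℝ} (hb : 0 < b) : Integrable (Set.indicator (Set.Ici (0 : ℝ)) fun u => Real.exp (-(b * u))) := by
  rw [integrable_indicator_iff measurableSet_Ici, integrableOn_Ici_iff_integrableOn_Ioi]
  have := exp_neg_integrableOn_Ioi 0 hb
  simpa only [neg_mul] using this

theorem sin_half {x : ℝ} (h1 : 1 ≤ x) (h2 : x ≤ 2) : 1 / 2 ≤ Real.sin x := by
  have hpi := Real.pi_gt_three
  have hpi2 := Real.pi_lt_d2
  rcases le_total x (Real.pi / 2) with h | h
  · have h3 := Real.mul_le_sin (by linarith) h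
    refine le_trans ?_ h3
    rw [div_mul_eq_mul_div, div_le_div_iff₀ (by norm_num) (by linarith)]
    nlinarith
  · rw [← Real.sin_pi_sub]
    have h3 := Real.mul_le_sin (x := Real.pi - x) (by linarith) (by linarith)
    refine le_trans ?_ h3
    rw [div_mul_eq_mul_div, div_le_div_iff₀ (by norm_num) (by linarith)]
    nlinarith

theorem measurable_mj : Measurable mj := by
  unfold mj
  refine Measurable.ite measurableSet_Ici ?_ measurable_const
  exact ((measurable_from_nat.comp (Nat.measurable_floor.comp Real.measurable_exp))).add Real.measurable_exp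

theorem mj_nonneg (u : ℝ) : 0 ≤ mj u := by
  unfold mj
  split_ifs
  · positivity
  · exact le_rfl

theorem mj_le (u : ℝ) : mj u ≤ 2 * Real.exp u := by
  unfold mj
  split_ifs
  · have := Nat.floor_le (Real.exp_pos u).le
    linarith
  · positivity

theorem mj_neg {u : ℝ} (hu : u < 0) : mj u = 0 := by
  unfold mj
  rw [if_neg (not_le.2 hu)]

theorem int_mj {b : ℝ} (hb : 1 < b) : Integrable fun u => mj u * Real.exp (-(b * u)) := by
  refine Integrable.mono' ((int_ind (b := b - 1) (by linarith)).const_mul 2) ?_ ?_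
  · exact (measurable_mj.mul (by fun_prop)).aestronglyMeasurable
  · refine Eventually.of_forall fun u => ?_
    rw [Real.norm_of_nonneg (mul_nonneg (mj_nonneg u) (Real.exp_pos _).le)]
    by_cases hu : 0 ≤ u
    · rw [Set.indicator_of_mem (Set.mem_Ici.2 hu)]
      calc mj u * Real.exp (-(b * u)) ≤ 2 * Real.exp u * Real.exp (-(b * u)) :=
            mul_le_mul_of_nonneg_right (mj_le u) (Real.exp_pos _).le
        _ = 2 * Real.exp (-((b - 1) * u)) := by
            rw [mul_assoc, ← Real.exp_add]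
            congr 2
            ring
    · rw [mj_neg (not_le.1 hu), zero_mul]
      exact mul_nonneg (by norm_num) (Set.indicator_nonneg (fun _ _ => (Real.exp_pos _).le) _)

section

variable {f : ℝ → ℝ} {K θ σ : ℝ}

/-- the weighted function -/
noncomputable def gw (f : ℝ → ℝ) (σ : ℝ) (u : ℝ) : ℂ := ((f u * Real.exp (-(σ * u)) : ℝ) : ℂ)

theorem int_gw (hf : Measurable f) (hK : 0 ≤ K) (hθ : θ < σ) (h0 : ∀ u, u < 0 → f u = 0)
    (h1 : ∀ u, 0 ≤ u → |f u| ≤ K * Real.exp (θ * u)) : Integrable (gw f σ) := by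
  refine Integrable.mono' ((int_ind (b := σ - θ) (by linarith)).const_mul K) ?_ ?_
  · exact (Complex.measurable_ofReal.comp (hf.mul (by fun_prop))).aestronglyMeasurable
  · refine Eventually.of_forall fun u => ?_
    unfold gw
    rw [Complex.norm_real, Real.norm_eq_abs, abs_mul, Real.abs_exp]
    by_cases hu : 0 ≤ u
    · rw [Set.indicator_of_mem (Set.mem_Ici.2 hu)]
      calc |f u| * Real.exp (-(σ * u)) ≤ K * Real.exp (θ * u) * Real.exp (-(σ * u)) :=
            mul_le_mul_of_nonneg_right (h1 u hu) (Real.exp_pos _).le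
        _ = K * Real.exp (-((σ - θ) * u)) := by
            rw [mul_assoc, ← Real.exp_add]
            congr 2
            ring
    · rw [h0 u (not_le.1 hu), abs_zero, zero_mul]
      exact mul_nonneg hK (Set.indicator_nonneg (fun _ _ => (Real.exp_pos _).le) _)

theorem F_eq (f : ℝ → ℝ) (σ v : ℝ) : ∫ u : ℝ, (f u : ℂ) * Complex.exp (-(pt σ v * u)) = FT (gw f σ) (-v) := by
  unfold FT gw pt
  refine integral_congr_ae (Eventually.of_forall fun u => ?_)
  simp only
  rw [show -(((σ : ℂ) + Complex.I * (v : ℂ)) * (u : ℂ)) = Complex.I * ((-v : ℝ) : ℂ) * (u : ℂ) + ((-(σ * u) : ℝ) : ℂ) by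
    push_cast; ring, Complex.exp_add]
  push_cast
  ring

/-- the difference -/
noncomputable def kw (f : ℝ → ℝ) (σ h : ℝ) (u : ℝ) : ℂ := (((f (u + h) - f u) * Real.exp (-(σ * u)) : ℝ) : ℂ)

theorem kw_eq (f : ℝ → ℝ) (σ h u : ℝ) : kw f σ h u = ((Real.exp (σ * h) : ℝ) : ℂ) * gw f σ (u + h) - gw f σ u := by
  unfold kw gw
  have h1 : Real.exp (σ * h) * (f (u + h) * Real.exp (-(σ * (u + h)))) = f (u + h) * Real.exp (-(σ * u)) := by
    have h2 : Real.exp (-(σ * u)) = Real.exp (σ * h) * Real.exp (-(σ * (u + h))) := by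
      rw [← Real.exp_add]
      congr 1
      ring
    rw [h2]
    ring
  rw [← Complex.ofReal_mul, h1, ← Complex.ofReal_sub]
  congr 1
  ring

theorem int_kw (hg : Integrable (gw f σ)) (h : ℝ) : Integrable (kw f σ h) := by
  have e : kw f σ h = fun u => ((Real.exp (σ * h) : ℝ) : ℂ) * gw f σ (u + h) - gw f σ u := by
    funext u
    exact kw_eq f σ h u
  rw [e]
  exact ((hg.comp_add_right h).const_mul _).sub hg

theorem FT_kw (hg : Integrable (gw f σ)) (h v : ℝ) :
    FT (kw f σ h) (-v) = (Complex.exp (pt σ v * h) - 1) * FT (gw f σ) (-v) := by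
  have h1 : FT (kw f σ h) (-v) = ∫ u : ℝ, (Complex.exp (pt σ v * h) * (Complex.exp (Complex.I * ((-v : ℝ) : ℂ) * ((u + h : ℝ) : ℂ)) * gw f σ (u + h)) -
      Complex.exp (Complex.I * ((-v : ℝ) : ℂ) * (u : ℂ)) * gw f σ u) := by
    unfold FT
    refine integral_congr_ae (Eventually.of_forall fun u => ?_)
    simp only
    rw [kw_eq, mul_sub]
    congr 1
    rw [← mul_assoc, ← mul_assoc, ← Complex.exp_add, Complex.ofReal_exp, ← Complex.exp_add]
    congr 2
    unfold pt
    push_cast
    ring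
  have hi := integrable_FT hg (-v)
  have hi2 : Integrable (fun u : ℝ => Complex.exp (Complex.I * ((-v : ℝ) : ℂ) * ((u + h : ℝ) : ℂ)) * gw f σ (u + h)) :=
    hi.comp_add_right h
  have h3 : ∫ u : ℝ, Complex.exp (Complex.I * ((-v : ℝ) : ℂ) * ((u + h : ℝ) : ℂ)) * gw f σ (u + h) = FT (gw f σ) (-v) :=
    integral_add_right_eq_self (fun u : ℝ => Complex.exp (Complex.I * ((-v : ℝ) : ℂ) * (u : ℂ)) * gw f σ u) h
  rw [h1, integral_sub (hi2.const_mul _) hi, integral_const_mul, h3]
  unfold FT
  ring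

/-- the square of the difference -/
theorem kw_sq (hK : 0 ≤ K) (hθ0 : 0 ≤ θ) (h0 : ∀ u, u < 0 → f u = 0) (h1 : ∀ u, 0 ≤ u → |f u| ≤ K * Real.exp (θ * u))
    (h2 : ∀ u h : ℝ, 0 ≤ h → |f (u + h) - f u| ≤ mj (u + h) - mj u) {h : ℝ} (hh : 0 ≤ h) (u : ℝ) :
    ‖kw f σ h u‖ ^ 2 ≤ 2 * K * Real.exp (θ * h) * ((mj (u + h) - mj u) * Real.exp (-((2 * σ - θ) * u))) := by
  have hb : ∀ w, |f w| ≤ K * Real.exp (θ * w) := by
    intro w
    by_cases hw : 0 ≤ w
    · exact h1 w hw
    · rw [h0 w (not_le.1 hw), abs_zero]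
      exact mul_nonneg hK (Real.exp_pos _).le
  have e1 : |f (u + h) - f u| ≤ 2 * K * Real.exp (θ * (u + h)) := by
    have a1 := hb (u + h)
    have a2 := hb u
    have a3 : Real.exp (θ * u) ≤ Real.exp (θ * (u + h)) := Real.exp_le_exp.2 (mul_le_mul_of_nonneg_left (by linarith) hθ0)
    have a4 := mul_le_mul_of_nonneg_left a3 hK
    have a5 := abs_sub (f (u + h)) (f u)
    linarith
  have e2 := h2 u h hh
  unfold kw
  rw [Complex.norm_real, Real.norm_eq_abs, sq_abs, mul_pow, ← Real.exp_nat_mul]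
  have e3 : (f (u + h) - f u) ^ 2 ≤ (mj (u + h) - mj u) * (2 * K * Real.exp (θ * (u + h))) := by
    rw [← sq_abs, sq]
    exact mul_le_mul e2 e1 (abs_nonneg _) ((abs_nonneg _).trans e2)
  calc (f (u + h) - f u) ^ 2 * Real.exp (((2 : ℕ) : ℝ) * -(σ * u))
      ≤ (mj (u + h) - mj u) * (2 * K * Real.exp (θ * (u + h))) * Real.exp (((2 : ℕ) : ℝ) * -(σ * u)) :=
        mul_le_mul_of_nonneg_right e3 (Real.exp_pos _).le
    _ = _ := by
        have e4 : Real.exp (θ * (u + h)) * Real.exp (((2 : ℕ) : ℝ) * -(σ * u)) =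
            Real.exp (θ * h) * Real.exp (-((2 * σ - θ) * u)) := by
          rw [← Real.exp_add, ← Real.exp_add]
          congr 1
          push_cast
          ring
        calc (mj (u + h) - mj u) * (2 * K * Real.exp (θ * (u + h))) * Real.exp (((2 : ℕ) : ℝ) * -(σ * u))
            = (mj (u + h) - mj u) * (2 * K) * (Real.exp (θ * (u + h)) * Real.exp (((2 : ℕ) : ℝ) * -(σ * u))) := by ring
          _ = _ := by rw [e4]; ring

theorem int_dmj {b : ℝ} (hb : 1 < b) (h : ℝ) : Integrable (fun u => (mj (u + h) - mj u) * Real.exp (-(b * u))) ∧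
    ∫ u, (mj (u + h) - mj u) * Real.exp (-(b * u)) = (Real.exp (b * h) - 1) * ∫ u, mj u * Real.exp (-(b * u)) := by
  have hi := int_mj hb
  have hi2 := hi.comp_add_right h
  have e : ∀ u, (mj (u + h) - mj u) * Real.exp (-(b * u)) =
      Real.exp (b * h) * (mj (u + h) * Real.exp (-(b * (u + h)))) - mj u * Real.exp (-(b * u)) := by
    intro u
    have h2 : Real.exp (-(b * u)) = Real.exp (b * h) * Real.exp (-(b * (u + h))) := by
      rw [← Real.exp_add]
      congr 1
      ring
    calc (mj (u + h) - mj u) * Real.exp (-(b * u)) = mj (u + h) * Real.exp (-(b * u)) - mj u * Real.exp (-(b * u)) := by ring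
      _ = mj (u + h) * (Real.exp (b * h) * Real.exp (-(b * (u + h)))) - mj u * Real.exp (-(b * u)) := by rw [← h2]
      _ = _ := by ring
  have e' : (fun u => (mj (u + h) - mj u) * Real.exp (-(b * u))) =
      fun u => Real.exp (b * h) * (mj (u + h) * Real.exp (-(b * (u + h)))) - mj u * Real.exp (-(b * u)) := funext e
  rw [e']
  refine ⟨(hi2.const_mul _).sub hi, ?_⟩
  rw [integral_sub (hi2.const_mul _) hi, integral_const_mul,
    integral_add_right_eq_self (fun u : ℝ => mj u * Real.exp (-(b * u))) h]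
  ring

end

/-- the dyadic mean value -/
theorem dyadic (f : ℝ → ℝ) (K θ σ : ℝ) (hf : Measurable f) (hK : 0 ≤ K) (hθ0 : 0 ≤ θ) (hθ : θ < σ) (hσ : 1 + θ < 2 * σ)
    (h0 : ∀ u, u < 0 → f u = 0) (h1 : ∀ u, 0 ≤ u → |f u| ≤ K * Real.exp (θ * u))
    (h2 : ∀ u h : ℝ, 0 ≤ h → |f (u + h) - f u| ≤ mj (u + h) - mj u) : ∃ C : ℝ, 0 ≤ C ∧ ∀ V : ℝ, 1 ≤ V →
      ∫ v in V..(2 * V), ‖FT (gw f σ) (-v)‖ ^ 2 ≤ C / V := by
  set b : ℝ := 2 * σ - θ with hb
  have hb1 : 1 < b := by rw [hb]; linarith
  set J : ℝ := ∫ u, mj u * Real.exp (-(b * u)) with hJ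
  have hJ0 : 0 ≤ J := integral_nonneg fun u => mul_nonneg (mj_nonneg u) (Real.exp_pos _).le
  have hg := int_gw hf hK hθ h0 h1
  refine ⟨8 * Real.pi * (2 * K * Real.exp θ * (b * Real.exp b * J)), by have := Real.pi_pos; positivity, fun V hV => ?_⟩
  have hV0 : 0 < V := by linarith
  obtain ⟨h, hh⟩ : ∃ h : ℝ, h = 1 / V := ⟨_, rfl⟩
  have hh0 : 0 < h := by rw [hh]; positivity
  have hh1 : h ≤ 1 := by rw [hh, div_le_one hV0]; exact hV
  obtain ⟨d1, d2⟩ := int_dmj hb1 h
  have hk := int_kw (σ := σ) hg h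
  have hkm : AEStronglyMeasurable (fun u => ‖kw f σ h u‖ ^ 2) volume := (hk.aestronglyMeasurable.norm.pow 2)
  have hk2 : Integrable (fun u => ‖kw f σ h u‖ ^ 2) := by
    refine Integrable.mono' (d1.const_mul (2 * K * Real.exp (θ * h))) hkm ?_
    refine Eventually.of_forall fun u => ?_
    rw [Real.norm_of_nonneg (sq_nonneg _)]
    exact kw_sq hK hθ0 h0 h1 h2 hh0.le u
  have hk3 : ∫ u, ‖kw f σ h u‖ ^ 2 ≤ 2 * K * Real.exp θ * (b * Real.exp b * J) * h := by
    calc ∫ u, ‖kw f σ h u‖ ^ 2 ≤ ∫ u, 2 * K * Real.exp (θ * h) * ((mj (u + h) - mj u) * Real.exp (-(b * u))) :=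
          integral_mono hk2 (d1.const_mul _) fun u => kw_sq hK hθ0 h0 h1 h2 hh0.le u
      _ = 2 * K * Real.exp (θ * h) * ((Real.exp (b * h) - 1) * J) := by rw [integral_const_mul, d2]
      _ ≤ 2 * K * Real.exp θ * ((b * h * Real.exp b) * J) := by
          have a1 : Real.exp (θ * h) ≤ Real.exp θ := Real.exp_le_exp.2 (by nlinarith)
          have a2 : Real.exp (b * h) - 1 ≤ b * h * Real.exp b := by
            have a3 := Real.one_sub_le_exp_neg (b * h)
            have a4 : Real.exp (b * h) * Real.exp (-(b * h)) = 1 := by rw [← Real.exp_add, add_neg_cancel, Real.exp_zero]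
            have a5 : Real.exp (b * h) ≤ Real.exp b := Real.exp_le_exp.2 (by nlinarith)
            have a6 : 0 ≤ b * h := by positivity
            have a7 := Real.exp_pos (b * h)
            nlinarith [mul_le_mul_of_nonneg_left a5 a6, mul_le_mul_of_nonneg_left a3 a7.le]
          have a3 : 0 ≤ Real.exp (b * h) - 1 := by
            have := Real.one_le_exp (show 0 ≤ b * h by positivity)
            linarith
          refine mul_le_mul (mul_le_mul_of_nonneg_left a1 (by positivity)) (mul_le_mul_of_nonneg_right a2 hJ0)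
            (mul_nonneg a3 hJ0) (by positivity)
      _ = _ := by ring
  have hpl := planch hk hk2 (a := -(2 * V)) (b := -V) (by linarith)
  have hcg := continuous_FT hg
  have hck := continuous_FT hk
  have h4 : ∫ v in V..(2 * V), ‖FT (gw f σ) (-v)‖ ^ 2 ≤ ∫ v in V..(2 * V), 4 * ‖FT (kw f σ h) (-v)‖ ^ 2 := by
    refine intervalIntegral.integral_mono_on (by linarith) ?_ ?_ fun v hv => ?_
    · exact (((hcg.comp continuous_neg).norm).pow 2).intervalIntegrable _ _
    · exact ((((hck.comp continuous_neg).norm).pow 2).const_mul 4).intervalIntegrable _ _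
    · rw [FT_kw hg, norm_mul, mul_pow]
      have hvh1 : 1 ≤ v * h := by
        rw [hh, mul_one_div, le_div_iff₀ hV0]
        linarith [hv.1]
      have hvh2 : v * h ≤ 2 := by
        rw [hh, mul_one_div, div_le_iff₀ hV0]
        linarith [hv.2]
      have a1 := sin_half hvh1 hvh2
      have a2 : (Complex.exp (pt σ v * h) - 1).im = Real.exp (σ * h) * Real.sin (v * h) := by
        unfold pt
        rw [Complex.sub_im, Complex.one_im, sub_zero, Complex.exp_im]
        congr 2 <;> simp
      have a3 : 1 / 2 ≤ ‖Complex.exp (pt σ v * h) - 1‖ := by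
        refine le_trans ?_ (Complex.abs_im_le_norm _)
        rw [a2]
        refine le_trans ?_ (le_abs_self _)
        have a4 : 1 ≤ Real.exp (σ * h) := Real.one_le_exp (mul_nonneg (by linarith) hh0.le)
        nlinarith
      have a5 : 1 ≤ 4 * ‖Complex.exp (pt σ v * h) - 1‖ ^ 2 := by nlinarith
      have a6 := mul_le_mul_of_nonneg_right a5 (sq_nonneg ‖FT (gw f σ) (-v)‖)
      linarith
  have h5 : ∫ v in V..(2 * V), 4 * ‖FT (kw f σ h) (-v)‖ ^ 2 = 4 * ∫ τ in (-(2 * V))..(-V), ‖FT (kw f σ h) τ‖ ^ 2 := by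
    rw [intervalIntegral.integral_const_mul]
    congr 1
    exact intervalIntegral.integral_comp_neg (fun τ => ‖FT (kw f σ h) τ‖ ^ 2)
  rw [h5] at h4
  refine h4.trans ?_
  have h6 : 2 * Real.pi * ∫ u, ‖kw f σ h u‖ ^ 2 ≤ 2 * Real.pi * (2 * K * Real.exp θ * (b * Real.exp b * J) * h) :=
    mul_le_mul_of_nonneg_left hk3 (by have := Real.pi_pos; positivity)
  calc 4 * ∫ τ in (-(2 * V))..(-V), ‖FT (kw f σ h) τ‖ ^ 2 ≤ 4 * (2 * Real.pi * (2 * K * Real.exp θ * (b * Real.exp b * J) * h)) := by
        linarith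
    _ = _ := by rw [hh]; ring

/-- an even continuous function, integrable on a half line -/
theorem integrable_of_even {G : ℝ → ℝ} (hG : Continuous G) (he : ∀ v, G (-v) = G v) (hi : IntegrableOn G (Set.Ioi 1)) :
    Integrable G := by
  have h1 : IntegrableOn G (Set.Icc (-1) 1) := hG.continuousOn.integrableOn_Icc
  have h2 : IntegrableOn G (Set.Iic (-1)) := by
    rw [← Measure.map_neg_eq_self (volume : Measure ℝ)]
    let m : MeasurableEmbedding fun x : ℝ => -x := (Homeomorph.neg ℝ).measurableEmbedding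
    rw [m.integrableOn_map_iff]
    have e : G ∘ (fun x : ℝ => -x) = G := funext he
    rw [e, neg_preimage, neg_Iic, neg_neg]
    exact Iff.mpr integrableOn_Ici_iff_integrableOn_Ioi hi
  rw [← integrableOn_univ]
  have e : (Set.univ : Set ℝ) = Set.Iic (-1) ∪ (Set.Icc (-1) 1 ∪ Set.Ioi 1) := by
    ext x
    simp only [Set.mem_univ, Set.mem_union, Set.mem_Iic, Set.mem_Icc, Set.mem_Ioi, true_iff]
    rcases le_total x (-1) with h | h
    · exact Or.inl h
    · rcases le_or_gt x 1 with h' | h'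
      · exact Or.inr (Or.inl ⟨h, h'⟩)
      · exact Or.inr (Or.inr h')
  rw [e]
  exact h2.union (h1.union hi)

theorem stmtMV : StmtMV := by
  intro f K θ σ ε hf hK hθ0 hθ hσ hε h0 h1 h2
  have hg := int_gw hf hK hθ h0 h1
  obtain ⟨C, hC, hdy⟩ := dyadic f K θ σ hf hK hθ0 hθ hσ h0 h1 h2
  have hF : ∀ v, ‖∫ u : ℝ, (f u : ℂ) * Complex.exp (-(pt σ v * u))‖ = ‖FT (gw f σ) (-v)‖ := fun v => by rw [F_eq]
  simp only [hF]
  set e : ℝ := min ε 1 with he
  have he0 : 0 < e := lt_min hε one_pos
  have he1 : e ≤ 1 := min_le_right _ _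
  have hcg := continuous_FT hg
  -- the transform is even
  have heven : ∀ v, ‖FT (gw f σ) (- -v)‖ = ‖FT (gw f σ) (-v)‖ := by
    intro v
    rw [neg_neg]
    have : FT (gw f σ) v = (starRingEnd ℂ) (FT (gw f σ) (-v)) := by
      unfold FT
      rw [← integral_conj]
      refine integral_congr_ae (Eventually.of_forall fun u => ?_)
      simp only
      rw [map_mul, ← Complex.exp_conj]
      unfold gw
      rw [Complex.conj_ofReal]
      congr 2
      simp only [map_mul, Complex.conj_I, Complex.conj_ofReal]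
      push_cast
      ring
    rw [this, RCLike.norm_conj]
  set G : ℝ → ℝ := fun v => ‖FT (gw f σ) (-v)‖ ^ 2 * (1 + |v|) ^ (1 - e) with hGdef
  have hGc : Continuous G := by
    have c1 : Continuous fun v : ℝ => ‖FT (gw f σ) (-v)‖ ^ 2 := ((hcg.comp continuous_neg).norm).pow 2
    have c2 : Continuous fun v : ℝ => (1 + |v|) ^ (1 - e) :=
      (continuous_const.add continuous_abs).rpow_const fun v => Or.inr (by linarith)
    exact c1.mul c2
  have hG0 : ∀ v, 0 ≤ G v := fun v => mul_nonneg (sq_nonneg _) (Real.rpow_nonneg (by positivity) _)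
  have hGi : Integrable G := by
    refine integrable_of_even hGc (fun v => ?_) ?_
    · rw [hGdef]
      simp only
      rw [heven, abs_neg]
    · set q : ℝ := (2 : ℝ) ^ (-e) with hq
      have hq0 : 0 < q := by positivity
      have hq1 : q < 1 := Real.rpow_lt_one_of_one_lt_of_neg (by norm_num) (by linarith)
      refine integrableOn_Ioi_of_intervalIntegral_norm_bounded (b := fun n : ℕ => (2 : ℝ) ^ n) (l := atTop) (3 * C * (1 - q)⁻¹) 1
        (fun n => (hGc.integrableOn_Icc).mono_set Set.Ioc_subset_Icc_self) (tendsto_pow_atTop_atTop_of_one_lt (by norm_num)) ?_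
      refine Eventually.of_forall fun n => ?_
      have s1 : ∫ v in (1 : ℝ)..(2 ^ n), ‖G v‖ = ∑ j ∈ Finset.range n, ∫ v in ((2 : ℝ) ^ j)..(2 ^ (j + 1)), G v := by
        have := intervalIntegral.sum_integral_adjacent_intervals (f := G) (μ := volume) (a := fun j : ℕ => (2 : ℝ) ^ j) (n := n)
          fun k _ => hGc.intervalIntegrable _ _
        rw [this, pow_zero]
        exact intervalIntegral.integral_congr fun v _ => Real.norm_of_nonneg (hG0 v)
      rw [s1]
      have s2 : ∀ j ∈ Finset.range n, ∫ v in ((2 : ℝ) ^ j)..(2 ^ (j + 1)), G v ≤ 3 * C * q ^ j := by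
        intro j _
        have p1 : (1 : ℝ) ≤ 2 ^ j := one_le_pow₀ (by norm_num)
        have p0 : (0 : ℝ) < 2 ^ j := by positivity
        have p2 : (2 : ℝ) ^ (j + 1) = 2 * 2 ^ j := by ring
        have s3 : ∫ v in ((2 : ℝ) ^ j)..(2 ^ (j + 1)), G v ≤
            ∫ v in ((2 : ℝ) ^ j)..(2 ^ (j + 1)), 3 * ((2 : ℝ) ^ j) ^ (1 - e) * ‖FT (gw f σ) (-v)‖ ^ 2 := by
          refine intervalIntegral.integral_mono_on (by rw [p2]; linarith) (hGc.intervalIntegrable _ _) ?_ fun v hv => ?_
          · exact ((((hcg.comp continuous_neg).norm).pow 2).const_mul _).intervalIntegrable _ _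
          · rw [hGdef]
            simp only
            rw [mul_comm]
            refine mul_le_mul_of_nonneg_right ?_ (sq_nonneg _)
            have v0 : 0 ≤ v := by linarith [hv.1]
            rw [abs_of_nonneg v0]
            have v1 : 1 + v ≤ 3 * 2 ^ j := by
              have := hv.2
              rw [p2] at this
              linarith
            calc (1 + v) ^ (1 - e) ≤ (3 * 2 ^ j) ^ (1 - e) := Real.rpow_le_rpow (by linarith) v1 (by linarith)
              _ = (3 : ℝ) ^ (1 - e) * ((2 : ℝ) ^ j) ^ (1 - e) := Real.mul_rpow (by norm_num) p0.le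
              _ ≤ 3 * ((2 : ℝ) ^ j) ^ (1 - e) := by
                  refine mul_le_mul_of_nonneg_right ?_ (Real.rpow_nonneg p0.le _)
                  calc (3 : ℝ) ^ (1 - e) ≤ (3 : ℝ) ^ (1 : ℝ) := Real.rpow_le_rpow_of_exponent_le (by norm_num) (by linarith)
                    _ = 3 := Real.rpow_one _
        refine s3.trans ?_
        rw [intervalIntegral.integral_const_mul, p2]
        have s4 := hdy (2 ^ j) p1
        calc 3 * ((2 : ℝ) ^ j) ^ (1 - e) * ∫ v in ((2 : ℝ) ^ j)..(2 * 2 ^ j), ‖FT (gw f σ) (-v)‖ ^ 2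
            ≤ 3 * ((2 : ℝ) ^ j) ^ (1 - e) * (C / 2 ^ j) := mul_le_mul_of_nonneg_left s4 (by positivity)
          _ = 3 * C * q ^ j := by
              have s5 : ((2 : ℝ) ^ j) ^ (1 - e) = 2 ^ j * q ^ j := by
                rw [sub_eq_add_neg, Real.rpow_add p0, Real.rpow_one, hq, ← Real.rpow_natCast, ← Real.rpow_natCast,
                  ← Real.rpow_mul (by norm_num), ← Real.rpow_mul (by norm_num), mul_comm (j : ℝ)]
              rw [s5]
              field_simp
      refine (Finset.sum_le_sum s2).trans ?_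
      rw [← Finset.mul_sum]
      refine mul_le_mul_of_nonneg_left ?_ (by positivity)
      have s6 := (summable_geometric_of_lt_one hq0.le hq1).sum_le_tsum (Finset.range n) fun j _ => by positivity
      rwa [tsum_geometric_of_lt_one hq0.le hq1] at s6
  refine Integrable.mono' hGi ?_ ?_
  · have c1 : Continuous fun v : ℝ => ‖FT (gw f σ) (-v)‖ ^ 2 := ((hcg.comp continuous_neg).norm).pow 2
    have c2 : Continuous fun v : ℝ => (1 + |v|) ^ (1 - ε) :=
      (continuous_const.add continuous_abs).rpow_const fun v => Or.inl (by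
        have h3 := abs_nonneg v
        show (1 : ℝ) + |v| ≠ 0
        positivity)
    exact (c1.mul c2).aestronglyMeasurable
  · refine Eventually.of_forall fun v => ?_
    rw [Real.norm_of_nonneg (mul_nonneg (sq_nonneg _) (Real.rpow_nonneg (by positivity) _))]
    rw [hGdef]
    simp only
    refine mul_le_mul_of_nonneg_left ?_ (sq_nonneg _)
    exact Real.rpow_le_rpow_of_exponent_le (by linarith [abs_nonneg v]) (by linarith [min_le_left ε 1])

end Pool.Agent.Helper11.IT
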