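import Pool.Agent.Helper56.IT.Defs
import Pool.Agent.Helper56.IT.Stmts
import Pool.Agent.Helper66.LW.F2
import Pool.Agent.Helper96.AF.ZI

/-!
# Project IT (MP_a499ba_nt): the absolute values of the Dirichlet polynomials of the two models
-/

set_option autoImplicit false

namespace Pool.Agent.Helper11.IT

open Finset MeasureTheory Pool.Agent.Helper5.RM Pool.Agent.Helper96.AF Pool.Agent.Helper66.LW Pool.Agent.IT

/-- the term at the prime `p` -/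
noncomputable def zt (σ : ℝ) (th : ℕ → ℝ) (T : Finset ℕ) (t : ℝ) (p : ℕ) : ℂ :=
  fp th T p * (p : ℂ) ^ (-(((1 / 2 + σ : ℝ) : ℂ) + Complex.I * (t : ℂ)))

theorem zt_eq {p : ℕ} (hp : 0 < p) (σ : ℝ) (th : ℕ → ℝ) (T : Finset ℕ) (t : ℝ) :
    zt σ th T t p = ((sg T p * (p : ℝ) ^ (-(1 / 2 + σ)) : ℝ) : ℂ) *
      Complex.exp (Complex.I * ((th p - t * Real.log p : ℝ) : ℂ)) := by
  have hp0 : (0 : ℝ) < p := by exact_mod_cast hp
  have h1 : (p : ℂ) ^ (-(((1 / 2 + σ : ℝ) : ℂ) + Complex.I * (t : ℂ))) =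
      (((p : ℝ) ^ (-(1 / 2 + σ)) : ℝ) : ℂ) * Complex.exp (Complex.I * ((-(t * Real.log p) : ℝ) : ℂ)) := by
    rw [neg_add, Complex.cpow_add _ _ (by exact_mod_cast hp.ne')]
    congr 1
    · rw [← Complex.ofReal_neg, ← Complex.ofReal_natCast, ← Complex.ofReal_cpow hp0.le]
    · rw [Complex.cpow_def_of_ne_zero (by exact_mod_cast hp.ne'), ← Complex.natCast_log]
      congr 1
      push_cast
      ring
  unfold zt fp
  rw [h1, show (((th p - t * Real.log p : ℝ) : ℂ)) = ((th p : ℝ) : ℂ) + ((-(t * Real.log p) : ℝ) : ℂ) by push_cast; ring,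
    mul_add, Complex.exp_add]
  push_cast
  ring

theorem norm_expI (a : ℝ) : ‖Complex.exp (Complex.I * (a : ℂ))‖ = 1 := by
  rw [mul_comm]
  exact Complex.norm_exp_ofReal_mul_I a

theorem normsq_one_add (x a : ℝ) : ‖1 + (x : ℂ) * Complex.exp (Complex.I * (a : ℂ))‖ ^ 2 = 1 + 2 * x * Real.cos a + x ^ 2 := by
  rw [mul_comm Complex.I, Complex.exp_mul_I, ← Complex.ofReal_cos, ← Complex.ofReal_sin,
    ← Complex.normSq_eq_norm_sq, Complex.normSq_apply]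
  simp only [Complex.add_re, Complex.one_re, Complex.mul_re, Complex.ofReal_re, Complex.ofReal_im,
    Complex.I_re, Complex.I_im, Complex.mul_im, Complex.add_im, Complex.one_im]
  have h4 := Real.sin_sq_add_cos_sq a
  ring_nf
  have h5 : Real.sin a ^ 2 = 1 - Real.cos a ^ 2 := by linarith
  rw [h5]
  ring

theorem rpow_sq {p : ℕ} (hp : 0 < p) (σ : ℝ) : ((p : ℝ) ^ (-(1 / 2 + σ))) ^ 2 = (p : ℝ) ^ (-(1 + 2 * σ)) := by
  have hp0 : (0 : ℝ) < p := by exact_mod_cast hp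
  rw [← Real.rpow_natCast, ← Real.rpow_mul hp0.le]
  congr 1
  push_cast
  ring

/-- one factor of `DM` -/
theorem normsq_fac {p : ℕ} (hp : 0 < p) (σ : ℝ) (th : ℕ → ℝ) (T : Finset ℕ) (t : ℝ) :
    ‖1 + zt σ th T t p‖ ^ 2 = (1 + (p : ℝ) ^ (-(1 + 2 * σ))) *
      (1 + sg T p * (2 * (p : ℝ) ^ (-(1 / 2 + σ)) * Real.cos (t * Real.log p - th p) / (1 + (p : ℝ) ^ (-(1 + 2 * σ))))) := by
  have hp0 : (0 : ℝ) < p := by exact_mod_cast hp
  rw [zt_eq hp, normsq_one_add, ← Real.cos_neg, neg_sub, mul_pow, sg_sq, one_mul, rpow_sq hp]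
  have h3 : 0 < 1 + (p : ℝ) ^ (-(1 + 2 * σ)) := by positivity
  field_simp
  ring

theorem DM_eq (r : ℕ) (th : ℕ → ℝ) (T : Finset ℕ) (t : ℝ) : DM r th T t = ∏ p ∈ PP (Y r), (1 + zt (sr r) th T t p) := rfl

theorem DL_eq (r : ℕ) (th : ℕ → ℝ) (T : Finset ℕ) (t : ℝ) : DL r th T t = ∏ p ∈ PP (Y r), (1 - zt (sr r) th T t p)⁻¹ := rfl

theorem normsq_DM (r : ℕ) (th : ℕ → ℝ) (T : Finset ℕ) (t : ℝ) :
    ‖DM r th T t‖ ^ 2 = (∏ p ∈ PP (Y r), (1 + (p : ℝ) ^ (-(1 + 2 * sr r)))) * ddp (sr r) th (PP (Y r)) T t := by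
  rw [DM_eq]
  unfold ddp
  rw [norm_prod, ← Finset.prod_pow, ← Finset.prod_mul_distrib]
  exact Finset.prod_congr rfl fun p hp => normsq_fac (mem_PP.1 hp).1.pos _ _ _ _

theorem continuous_zt {p : ℕ} (hp : 0 < p) (σ : ℝ) (th : ℕ → ℝ) (T : Finset ℕ) : Continuous fun t => zt σ th T t p := by
  have e : (fun t => zt σ th T t p) = fun t => ((sg T p * (p : ℝ) ^ (-(1 / 2 + σ)) : ℝ) : ℂ) *
      Complex.exp (Complex.I * ((th p - t * Real.log p : ℝ) : ℂ)) := by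
    funext t
    exact zt_eq hp σ th T t
  rw [e]
  fun_prop

theorem norm_zt {p : ℕ} (hp : 0 < p) (σ : ℝ) (th : ℕ → ℝ) (T : Finset ℕ) (t : ℝ) :
    ‖zt σ th T t p‖ = (p : ℝ) ^ (-(1 / 2 + σ)) := by
  have hp0 : (0 : ℝ) < p := by exact_mod_cast hp
  rw [zt_eq hp, norm_mul, norm_expI, mul_one, Complex.norm_real, Real.norm_eq_abs, abs_mul, abs_sg, one_mul,
    abs_of_pos (by positivity)]

theorem norm_zt_lt {p : ℕ} (hp : 2 ≤ p) {σ : ℝ} (hσ : 0 ≤ σ) (th : ℕ → ℝ) (T : Finset ℕ) (t : ℝ) :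
    ‖zt σ th T t p‖ < 1 := by
  rw [norm_zt (by omega)]
  exact Real.rpow_lt_one_of_one_lt_of_neg (by exact_mod_cast (show 1 < p by omega)) (by linarith)

theorem one_sub_zt_ne {p : ℕ} (hp : 2 ≤ p) {σ : ℝ} (hσ : 0 ≤ σ) (th : ℕ → ℝ) (T : Finset ℕ) (t : ℝ) :
    1 - zt σ th T t p ≠ 0 := by
  intro h
  have h1 := norm_zt_lt hp hσ th T t
  rw [← sub_eq_zero.1 h, norm_one] at h1
  exact lt_irrefl _ h1

theorem continuous_DM (r : ℕ) (th : ℕ → ℝ) (T : Finset ℕ) : Continuous (DM r th T) := by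
  have : DM r th T = fun t => ∏ p ∈ PP (Y r), (1 + zt (sr r) th T t p) := rfl
  rw [this]
  exact continuous_finsetProd _ fun p hp => continuous_const.add (continuous_zt (mem_PP.1 hp).1.pos _ _ _)

theorem continuous_DL {r : ℕ} (hr : 0 ≤ sr r) (th : ℕ → ℝ) (T : Finset ℕ) : Continuous (DL r th T) := by
  have : DL r th T = fun t => ∏ p ∈ PP (Y r), (1 - zt (sr r) th T t p)⁻¹ := rfl
  rw [this]
  refine continuous_finsetProd _ fun p hp => ?_
  have hp2 := (mem_PP.1 hp).1.two_le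
  exact (continuous_const.sub (continuous_zt (by omega) _ _ _)).inv₀ fun t => one_sub_zt_ne hp2 hr th T t

end Pool.Agent.Helper11.IT
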