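import Mathlib
import Pool.Agent.Helper95.IT.Stmts
import Pool.Agent.Helper11.IT.FE
import Pool.Agent.Helper51.IT.GA

/-!
# Project IT (MP_a499ba_nt), block PB: pointwise bound of `ζ(2s)/ζ(s)` on `Re s = c` under RH and Littlewood's bound
-/

set_option autoImplicit false

namespace Pool.Agent.Helper11.IT

open Pool.Agent.Helper95.IT MeasureTheory

/-- the conclusion of helper66's `littlewood` -/
def StmtLit : Prop := ∀ δ η : ℝ, 0 < δ → 0 < η → ∃ C : ℝ, 0 < C ∧ ∀ s : ℂ, 1 / 2 + δ ≤ s.re → 1 ≤ |s.im| →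
  ‖riemannZeta s‖ ≤ C * |s.im| ^ η ∧ ‖(riemannZeta s)⁻¹‖ ≤ C * |s.im| ^ η

/-- under RH zeta does not vanish for `0 < Re s < 1/2` -/
theorem zeta_ne_left (hRH : ∀ s : ℂ, 1 / 2 < s.re → riemannZeta s ≠ 0) {s : ℂ} (h0 : 0 < s.re) (h1 : s.re < 1 / 2) :
    riemannZeta s ≠ 0 := by
  intro h
  have e2 : riemannZeta (1 - s) = 2 * (2 * (Real.pi : ℂ)) ^ (-s) * Complex.Gamma s * Complex.cos (Real.pi * s / 2) * riemannZeta s := by
    refine riemannZeta_one_sub (fun n h => ?_) (fun h => ?_)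
    · have h2 := congrArg Complex.re h
      simp at h2
      have h3 : (0 : ℝ) ≤ n := Nat.cast_nonneg n
      linarith
    · have h2 := congrArg Complex.re h
      simp at h2
      linarith
  rw [h, mul_zero] at e2
  exact hRH (1 - s) (by simp; linarith) e2

theorem continuous_pt (c : ℝ) : Continuous (pt c) := by
  unfold pt
  fun_prop

theorem cont_zeta_pt {c : ℝ} (hc1 : c < 1) : Continuous (fun v : ℝ => riemannZeta (pt c v)) := by
  rw [continuous_iff_continuousAt]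
  intro v
  have h1 : pt c v ≠ 1 := by
    intro h
    have h2 := congrArg Complex.re h
    rw [pt_re] at h2
    simp at h2
    linarith
  exact ContinuousAt.comp (f := pt c) (g := riemannZeta) (differentiableAt_riemannZeta h1).continuousAt (continuous_pt c).continuousAt

theorem cont_zeta_two_pt {c : ℝ} (hc1 : c < 1 / 2) : Continuous (fun v : ℝ => riemannZeta (2 * pt c v)) := by
  have h2 : ∀ v : ℝ, 2 * pt c v = pt (2 * c) (2 * v) := fun v => by
    unfold pt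
    push_cast
    ring
  have h3 := (cont_zeta_pt (c := 2 * c) (by linarith)).comp (continuous_const.mul continuous_id : Continuous fun v : ℝ => 2 * v)
  refine h3.congr (fun v => ?_)
  rw [h2]
  rfl

theorem cont_quot (hRH : ∀ s : ℂ, 1 / 2 < s.re → riemannZeta s ≠ 0) {c : ℝ} (hc0 : 0 < c) (hc1 : c < 1 / 2) :
    Continuous (fun v : ℝ => riemannZeta (2 * pt c v) / riemannZeta (pt c v)) :=
  (cont_zeta_two_pt hc1).div (cont_zeta_pt (by linarith)) (fun v => zeta_ne_left hRH (by rw [pt_re]; exact hc0) (by rw [pt_re]; exact hc1))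

/-- block PB -/
theorem quot_bd (hRH : ∀ s : ℂ, 1 / 2 < s.re → riemannZeta s ≠ 0) (hL : StmtLit) : ∀ c : ℝ, 0 < c → c < 1 / 4 →
    ∃ C : ℝ, 0 < C ∧ ∀ v : ℝ, ‖riemannZeta (2 * pt c v) / riemannZeta (pt c v)‖ ≤ C * (1 + |v|) ^ (-(c / 2)) := by
  intro c hc0 hc1
  obtain ⟨C1, hC1, hF⟩ := stmtFE Pool.Agent.Helper51.IT.stmtGA c hc0 hc1
  obtain ⟨C2, hC2, hL1⟩ := hL (1 / 2 - 2 * c) (c / 4) (by linarith) (by linarith)
  obtain ⟨M, hM⟩ := (isCompact_Icc (a := (-1 : ℝ)) (b := 1)).exists_bound_of_continuousOn (cont_quot hRH hc0 (by linarith)).continuousOn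
  refine ⟨2 * C1 * C2 ^ 2 + 2 * |M|, by positivity, fun v => ?_⟩
  have hv := abs_nonneg v
  have hv1 : 0 < 1 + |v| := by positivity
  have hz : riemannZeta (pt c v) ≠ 0 := zeta_ne_left hRH (by rw [pt_re]; exact hc0) (by rw [pt_re]; linarith)
  by_cases hv2 : |v| ≤ 1
  · have h1 := hM v (Set.mem_Icc.2 (abs_le.1 hv2))
    have h2 : (1 : ℝ) / 2 ≤ (1 + |v|) ^ (-(c / 2)) := by
      calc (1 : ℝ) / 2 = (2 : ℝ) ^ (-1 : ℝ) := by rw [Real.rpow_neg_one]; norm_num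
        _ ≤ (1 + |v|) ^ (-1 : ℝ) := Real.rpow_le_rpow_of_nonpos hv1 (by linarith) (by norm_num)
        _ ≤ (1 + |v|) ^ (-(c / 2)) := Real.rpow_le_rpow_of_exponent_le (by linarith) (by linarith)
    have h3 : (2 * C1 * C2 ^ 2 + 2 * |M|) * (1 / 2) ≤ (2 * C1 * C2 ^ 2 + 2 * |M|) * (1 + |v|) ^ (-(c / 2)) :=
      mul_le_mul_of_nonneg_left h2 (by positivity)
    have h4 : 0 ≤ C1 * C2 ^ 2 := by positivity
    have h5 := le_abs_self M
    linarith
  · rw [not_le] at hv2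
    have h1 := hF v hz
    have hre1 : (1 - 2 * pt c v).re = 1 - 2 * c := by simp [pt_re]
    have him1 : |(1 - 2 * pt c v).im| = 2 * |v| := by
      have h2 : (1 - 2 * pt c v).im = -(2 * v) := by simp [pt_im]
      rw [h2, abs_neg, abs_mul, abs_of_pos (by norm_num : (0 : ℝ) < 2)]
    have hre2 : (1 - pt c v).re = 1 - c := by simp [pt_re]
    have him2 : |(1 - pt c v).im| = |v| := by
      have h2 : (1 - pt c v).im = -v := by simp [pt_im]
      rw [h2, abs_neg]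
    have h2 := (hL1 (1 - 2 * pt c v) (by rw [hre1]; linarith) (by rw [him1]; linarith)).1
    have h3 := (hL1 (1 - pt c v) (by rw [hre2]; linarith) (by rw [him2]; linarith)).2
    rw [him1] at h2
    rw [him2] at h3
    have h4 : (2 * |v|) ^ (c / 4) ≤ 2 * (1 + |v|) ^ (c / 4) := by
      calc (2 * |v|) ^ (c / 4) = (2 : ℝ) ^ (c / 4) * |v| ^ (c / 4) := Real.mul_rpow (by norm_num) hv
        _ ≤ 2 * (1 + |v|) ^ (c / 4) := by
            have h5 : (2 : ℝ) ^ (c / 4) ≤ (2 : ℝ) ^ (1 : ℝ) := Real.rpow_le_rpow_of_exponent_le (by norm_num) (by linarith)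
            rw [Real.rpow_one] at h5
            have h6 : |v| ^ (c / 4) ≤ (1 + |v|) ^ (c / 4) := Real.rpow_le_rpow hv (by linarith) (by linarith)
            exact mul_le_mul h5 h6 (by positivity) (by norm_num)
    have h5 : |v| ^ (c / 4) ≤ (1 + |v|) ^ (c / 4) := Real.rpow_le_rpow hv (by linarith) (by linarith)
    have h6 : (1 + |v|) ^ (-c) * ((1 + |v|) ^ (c / 4) * (1 + |v|) ^ (c / 4)) = (1 + |v|) ^ (-(c / 2)) := by
      rw [← Real.rpow_add hv1, ← Real.rpow_add hv1]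
      congr 1
      ring
    calc ‖riemannZeta (2 * pt c v) / riemannZeta (pt c v)‖
        ≤ C1 * (1 + |v|) ^ (-c) * ‖riemannZeta (1 - 2 * pt c v)‖ * ‖(riemannZeta (1 - pt c v))⁻¹‖ := h1
      _ ≤ C1 * (1 + |v|) ^ (-c) * (C2 * (2 * (1 + |v|) ^ (c / 4))) * (C2 * (1 + |v|) ^ (c / 4)) := by
          have h7 : ‖riemannZeta (1 - 2 * pt c v)‖ ≤ C2 * (2 * (1 + |v|) ^ (c / 4)) := h2.trans (mul_le_mul_of_nonneg_left h4 hC2.le)
          have h8 : ‖(riemannZeta (1 - pt c v))⁻¹‖ ≤ C2 * (1 + |v|) ^ (c / 4) := h3.trans (mul_le_mul_of_nonneg_left h5 hC2.le)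
          gcongr
      _ = 2 * C1 * C2 ^ 2 * ((1 + |v|) ^ (-c) * ((1 + |v|) ^ (c / 4) * (1 + |v|) ^ (c / 4))) := by ring
      _ = 2 * C1 * C2 ^ 2 * (1 + |v|) ^ (-(c / 2)) := by rw [h6]
      _ ≤ (2 * C1 * C2 ^ 2 + 2 * |M|) * (1 + |v|) ^ (-(c / 2)) := by
          apply mul_le_mul_of_nonneg_right _ (by positivity)
          have := abs_nonneg M
          linarith

/-- `c (1 + |v|) ≤ 2 ‖pt c v‖` -/
theorem pt_low {c : ℝ} (hc0 : 0 < c) (hc1 : c < 1) (v : ℝ) : c * (1 + |v|) ≤ 2 * ‖pt c v‖ := by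
  have h1 : |(pt c v).re| ≤ ‖pt c v‖ := Complex.abs_re_le_norm _
  have h2 : |(pt c v).im| ≤ ‖pt c v‖ := Complex.abs_im_le_norm _
  rw [pt_re, abs_of_pos hc0] at h1
  rw [pt_im] at h2
  have := abs_nonneg v
  nlinarith

theorem pt_ne_zero {c : ℝ} (hc0 : 0 < c) (v : ℝ) : pt c v ≠ 0 := by
  intro h
  have h2 := congrArg Complex.re h
  rw [pt_re] at h2
  simp at h2
  linarith

/-- the quotient divided by `s`: pointwise bound with a summable exponent -/
theorem quot_bd1 (hRH : ∀ s : ℂ, 1 / 2 < s.re → riemannZeta s ≠ 0) (hL : StmtLit) {c : ℝ} (hc0 : 0 < c) (hc1 : c < 1 / 4) :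
    ∃ C : ℝ, 0 < C ∧ ∀ v : ℝ, ‖riemannZeta (2 * pt c v) / (pt c v * riemannZeta (pt c v))‖ ≤ C * (1 + |v|) ^ (-(1 + c / 2)) := by
  obtain ⟨C, hC, hB⟩ := quot_bd hRH hL c hc0 hc1
  refine ⟨2 * C / c, by positivity, fun v => ?_⟩
  have hv := abs_nonneg v
  have hv1 : 0 < 1 + |v| := by positivity
  have h1 : riemannZeta (2 * pt c v) / (pt c v * riemannZeta (pt c v)) = riemannZeta (2 * pt c v) / riemannZeta (pt c v) * (pt c v)⁻¹ := by
    rw [mul_comm (pt c v), ← div_div, div_eq_mul_inv _ (pt c v)]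
  have hp : 0 < ‖pt c v‖ := norm_pos_iff.2 (pt_ne_zero hc0 v)
  have h2 : ‖(pt c v)⁻¹‖ ≤ 2 / c * (1 + |v|) ^ (-1 : ℝ) := by
    rw [norm_inv, Real.rpow_neg_one]
    have h3 := pt_low hc0 (by linarith) v
    rw [inv_eq_one_div, inv_eq_one_div, div_mul_div_comm, mul_one, div_le_div_iff₀ hp (by positivity)]
    linarith
  rw [h1, norm_mul]
  calc ‖riemannZeta (2 * pt c v) / riemannZeta (pt c v)‖ * ‖(pt c v)⁻¹‖
      ≤ (C * (1 + |v|) ^ (-(c / 2))) * (2 / c * (1 + |v|) ^ (-1 : ℝ)) := mul_le_mul (hB v) h2 (norm_nonneg _) (by positivity)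
    _ = 2 * C / c * ((1 + |v|) ^ (-(c / 2)) * (1 + |v|) ^ (-1 : ℝ)) := by ring
    _ = 2 * C / c * (1 + |v|) ^ (-(1 + c / 2)) := by
        rw [← Real.rpow_add hv1]
        congr 2
        ring

theorem cont_quot1 (hRH : ∀ s : ℂ, 1 / 2 < s.re → riemannZeta s ≠ 0) {c : ℝ} (hc0 : 0 < c) (hc1 : c < 1 / 2) :
    Continuous (fun v : ℝ => riemannZeta (2 * pt c v) / (pt c v * riemannZeta (pt c v))) :=
  (cont_zeta_two_pt hc1).div ((continuous_pt c).mul (cont_zeta_pt (by linarith))) (fun v => mul_ne_zero (pt_ne_zero hc0 v)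
    (zeta_ne_left hRH (by rw [pt_re]; exact hc0) (by rw [pt_re]; exact hc1)))

/-- integrability without `t` -/
theorem quot_int (hRH : ∀ s : ℂ, 1 / 2 < s.re → riemannZeta s ≠ 0) (hL : StmtLit) {c : ℝ} (hc0 : 0 < c) (hc1 : c < 1 / 4) :
    Integrable (fun v : ℝ => riemannZeta (2 * pt c v) / (pt c v * riemannZeta (pt c v))) := by
  obtain ⟨C, hC, hB⟩ := quot_bd1 hRH hL hc0 hc1
  have h1 : Integrable (fun v : ℝ => C * (1 + ‖v‖) ^ (-(1 + c / 2))) :=
    (integrable_one_add_norm (μ := (volume : Measure ℝ)) (r := 1 + c / 2) (by simp; linarith)).const_mul C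
  refine h1.mono' (cont_quot1 hRH hc0 (by linarith)).aestronglyMeasurable (Filter.Eventually.of_forall fun v => ?_)
  rw [Real.norm_eq_abs]
  exact hB v

end Pool.Agent.Helper11.IT
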