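import Mathlib
import Pool.Agent.Helper95.IT.Stmts
import Pool.Agent.Helper11.IT.PB
import Pool.Agent.Helper51.IT.WB
import Pool.Agent.Helper66.IT.LI

/-!
# Project IT (MP_a499ba_nt), block PX: the kernel `G v = ζ(2s)/(s ζ(s))`, `s = c + iv`, under RH
-/

set_option autoImplicit false

namespace Pool.Agent.Helper11.IT

open Pool.Agent.Helper95.IT MeasureTheory

/-- the kernel on `Re s = c` -/
noncomputable def GG (c v : ℝ) : ℂ := riemannZeta (2 * pt c v) / (pt c v * riemannZeta (pt c v))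

theorem rh_all (hRH : ∀ s : ℂ, 1 / 2 < s.re → s ≠ 1 → riemannZeta s ≠ 0) : ∀ s : ℂ, 1 / 2 < s.re → riemannZeta s ≠ 0 := by
  intro s hs
  by_cases h : s = 1
  · rw [h]
    exact riemannZeta_ne_zero_of_one_le_re (by simp)
  · exact hRH s hs h

theorem lit_all (hRH : ∀ s : ℂ, 1 / 2 < s.re → s ≠ 1 → riemannZeta s ≠ 0) : StmtLit :=
  fun δ η hδ hη => Pool.Agent.Helper66.IT.littlewood hRH δ η hδ hη

theorem zeta_pt_ne (hRH : ∀ s : ℂ, 1 / 2 < s.re → s ≠ 1 → riemannZeta s ≠ 0) {c : ℝ} (hc0 : 0 < c) (hc1 : c < 1 / 4) (v : ℝ) :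
    riemannZeta (pt c v) ≠ 0 :=
  zeta_ne_left (rh_all hRH) (by rw [pt_re]; exact hc0) (by rw [pt_re]; linarith)

theorem GG_cont (hRH : ∀ s : ℂ, 1 / 2 < s.re → s ≠ 1 → riemannZeta s ≠ 0) {c : ℝ} (hc0 : 0 < c) (hc1 : c < 1 / 4) :
    Continuous (GG c) := cont_quot1 (rh_all hRH) hc0 (by linarith)

theorem GG_int (hRH : ∀ s : ℂ, 1 / 2 < s.re → s ≠ 1 → riemannZeta s ≠ 0) {c : ℝ} (hc0 : 0 < c) (hc1 : c < 1 / 4) :
    Integrable (GG c) := quot_int (rh_all hRH) (lit_all hRH) hc0 hc1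

theorem pt_GG {c : ℝ} (hc0 : 0 < c) (v : ℝ) : pt c v * GG c v = riemannZeta (2 * pt c v) / riemannZeta (pt c v) := by
  unfold GG
  rw [mul_div_assoc', mul_div_mul_left _ _ (pt_ne_zero hc0 v)]

/-- block PX -/
theorem GG_W (hRH : ∀ s : ℂ, 1 / 2 < s.re → s ≠ 1 → riemannZeta s ≠ 0) {c : ℝ} (hc0 : 0 < c) (hc1 : c < 1 / 4) :
    ∃ W : ℝ, 0 < W ∧ ∀ t : ℝ, Integrable (fun v : ℝ => ‖pt c v * GG c v‖ / ‖(c : ℂ) + Complex.I * ((v : ℂ) - (t : ℂ))‖) ∧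
      ∫ v : ℝ, ‖pt c v * GG c v‖ / ‖(c : ℂ) + Complex.I * ((v : ℂ) - (t : ℂ))‖ ≤ W * (1 + |t|) ^ (-(c / 4)) := by
  obtain ⟨C, hC, hB⟩ := quot_bd (rh_all hRH) (lit_all hRH) c hc0 hc1
  obtain ⟨C1, hC1, hW⟩ := Pool.Agent.Helper51.IT.wb c (c / 2) hc0 (by linarith) (by linarith)
  refine ⟨C * C1, by positivity, fun t => ?_⟩
  obtain ⟨w1, w2⟩ := hW t
  have hden : ∀ v : ℝ, (c : ℂ) + Complex.I * ((v : ℂ) - (t : ℂ)) ≠ 0 := by
    intro v h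
    have h2 := congrArg Complex.re h
    simp at h2
    linarith
  have hcont : Continuous (fun v : ℝ => ‖pt c v * GG c v‖ / ‖(c : ℂ) + Complex.I * ((v : ℂ) - (t : ℂ))‖) := by
    refine (((continuous_pt c).mul (GG_cont hRH hc0 hc1)).norm).div ?_ (fun v => (norm_pos_iff.2 (hden v)).ne')
    exact (by fun_prop : Continuous fun v : ℝ => (c : ℂ) + Complex.I * ((v : ℂ) - (t : ℂ))).norm
  have hle : ∀ v : ℝ, ‖pt c v * GG c v‖ / ‖(c : ℂ) + Complex.I * ((v : ℂ) - (t : ℂ))‖ ≤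
      C * ((1 + |v|) ^ (-(c / 2)) / ‖(c : ℂ) + Complex.I * ((v : ℂ) - (t : ℂ))‖) := by
    intro v
    rw [← mul_div_assoc]
    refine div_le_div_of_nonneg_right ?_ (norm_nonneg _)
    rw [pt_GG hc0]
    exact hB v
  have hI : Integrable (fun v : ℝ => ‖pt c v * GG c v‖ / ‖(c : ℂ) + Complex.I * ((v : ℂ) - (t : ℂ))‖) := by
    refine (w1.const_mul C).mono' hcont.aestronglyMeasurable (Filter.Eventually.of_forall fun v => ?_)
    rw [Real.norm_eq_abs, abs_of_nonneg (by positivity)]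
    exact hle v
  refine ⟨hI, ?_⟩
  calc ∫ v : ℝ, ‖pt c v * GG c v‖ / ‖(c : ℂ) + Complex.I * ((v : ℂ) - (t : ℂ))‖
      ≤ ∫ v : ℝ, C * ((1 + |v|) ^ (-(c / 2)) / ‖(c : ℂ) + Complex.I * ((v : ℂ) - (t : ℂ))‖) :=
        integral_mono hI (w1.const_mul C) hle
    _ = C * ∫ v : ℝ, (1 + |v|) ^ (-(c / 2)) / ‖(c : ℂ) + Complex.I * ((v : ℂ) - (t : ℂ))‖ := integral_const_mul _ _
    _ ≤ C * (C1 * (1 + |t|) ^ (-(c / 2 / 2))) := mul_le_mul_of_nonneg_left w2 hC.le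
    _ = C * C1 * (1 + |t|) ^ (-(c / 4)) := by
        rw [show c / 2 / 2 = c / 4 by ring]
        ring

/-- the form with a constant bound -/
theorem GG_W1 (hRH : ∀ s : ℂ, 1 / 2 < s.re → s ≠ 1 → riemannZeta s ≠ 0) {c : ℝ} (hc0 : 0 < c) (hc1 : c < 1 / 4) :
    ∃ W : ℝ, ∀ t : ℝ, Integrable (fun v : ℝ => ‖pt c v * GG c v‖ / ‖(c : ℂ) + Complex.I * ((v : ℂ) - (t : ℂ))‖) ∧
      ∫ v : ℝ, ‖pt c v * GG c v‖ / ‖(c : ℂ) + Complex.I * ((v : ℂ) - (t : ℂ))‖ ≤ W := by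
  obtain ⟨W, hW, h⟩ := GG_W hRH hc0 hc1
  refine ⟨W, fun t => ⟨(h t).1, (h t).2.trans ?_⟩⟩
  have ht := abs_nonneg t
  have h1 : (1 + |t|) ^ (-(c / 4)) ≤ 1 := Real.rpow_le_one_of_one_le_of_nonpos (by linarith) (by linarith)
  calc W * (1 + |t|) ^ (-(c / 4)) ≤ W * 1 := mul_le_mul_of_nonneg_left h1 hW.le
    _ = W := mul_one W

end Pool.Agent.Helper11.IT
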